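import Pool.Agent.Lib.MP_305fdd_al.Fr.D.Help
import Pool.Agent.Lib.MP_305fdd_al.F2.ChDefs

/-!
# MP_305fdd_al, F_r: the dichotomy theorem, section 0: a real semi-good valuation

If every finite set `F` of nonzero elements of `B`, generating `B`, contains an `f` outside of
`k[1/g : g in F]`, then there is a nontrivial real valuation which is `<= 0` on `B - 0`.
-/

set_option autoImplicit false
set_option linter.unusedSectionVars false

namespace Pool.Agent.FrD

open Polynomial Filter Topology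
open scoped Classical

section real

variable {K : Type} [Field K]

/-- comparison of the exponents -/
theorem zpow_le_iff (y : ValuationSubring K) {p : K} (hp : y.valuation p < 1) (hp0 : p ≠ 0)
    (a b : ℤ) : y.valuation p ^ a ≤ y.valuation p ^ b ↔ b ≤ a := by
  have h0 : (0 : y.ValueGroup) < y.valuation p := by
    rw [zero_lt_iff, Ne, map_eq_zero]
    exact hp0
  exact zpow_le_zpow_iff_right_of_lt_one₀ h0 hp

/-- A valuation ring all of whose values are commensurable with one value gives a real valuation. -/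
theorem real_val (y : ValuationSubring K) {p : K} (hp : y.valuation p < 1) (hp0 : p ≠ 0)
    (h : ∀ x : K, x ≠ 0 → ∃ m : ℕ, 1 ≤ m ∧ ∃ c : ℤ,
      y.valuation x ^ m = y.valuation p ^ c) :
    ∃ v : K → ℝ, F2Ch.IsV v ∧ ∀ x : K, x ≠ 0 → (0 ≤ v x ↔ x ∈ y) := by
  choose m hm c hc using h
  let v : K → ℝ := fun x => if hx : x = 0 then 0 else (c x hx : ℝ) / (m x hx : ℝ)
  have hmR : ∀ x (hx : x ≠ 0), (0 : ℝ) < (m x hx : ℝ) := fun x hx => by
    have := hm x hx
    exact_mod_cast this
  have hv : ∀ x (hx : x ≠ 0), v x = (c x hx : ℝ) / (m x hx : ℝ) := fun x hx => by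
    simp only [v, dif_neg hx]
  -- the basic comparison
  have key : ∀ (x : K) (hx : x ≠ 0) (n : ℕ) (e : ℤ), 1 ≤ n →
      (y.valuation x ^ n ≤ y.valuation p ^ e ↔ (e : ℝ) / n ≤ v x) := by
    intro x hx n e hn
    have hn0 : (0 : ℝ) < n := by exact_mod_cast hn
    have hm0 := hmR x hx
    rw [hv x hx, div_le_div_iff₀ hn0 hm0]
    have h1 : y.valuation x ^ n ≤ y.valuation p ^ e ↔
        (y.valuation x ^ n) ^ (m x hx) ≤ (y.valuation p ^ e) ^ (m x hx) := by
      refine (pow_le_pow_iff_left₀ zero_le zero_le ?_).symm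
      have := hm x hx
      omega
    rw [h1, ← pow_mul, mul_comm n, pow_mul, hc x hx, ← zpow_natCast, ← zpow_natCast, ← zpow_mul,
      ← zpow_mul, zpow_le_iff y hp hp0]
    constructor
    · intro h2
      have h3 : ((e * (m x hx : ℤ) : ℤ) : ℝ) ≤ ((c x hx * (n : ℤ) : ℤ) : ℝ) := by exact_mod_cast h2
      push_cast at h3
      exact h3
    · intro h2
      have h3 : ((e * (m x hx : ℤ) : ℤ) : ℝ) ≤ ((c x hx * (n : ℤ) : ℤ) : ℝ) := by
        push_cast
        exact h2
      exact_mod_cast h3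
  have mono : ∀ x z : K, x ≠ 0 → z ≠ 0 → (y.valuation x ≤ y.valuation z ↔ v z ≤ v x) := by
    intro x z hx hz
    have h1 : y.valuation x ≤ y.valuation z ↔
        y.valuation x ^ (m z hz) ≤ y.valuation z ^ (m z hz) := by
      refine (pow_le_pow_iff_left₀ zero_le zero_le ?_).symm
      have := hm z hz
      omega
    rw [h1, hc z hz, key x hx _ _ (hm z hz), ← hv z hz]
  have hv1 : v 1 = 0 := by
    have h1 : v 1 = (c 1 one_ne_zero : ℝ) / (m 1 one_ne_zero : ℝ) := hv 1 one_ne_zero
    have h2 := hc 1 one_ne_zero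
    rw [map_one, one_pow] at h2
    have h3 : c 1 one_ne_zero = 0 := by
      have h4 : y.valuation p ^ (0 : ℤ) = y.valuation p ^ (c 1 one_ne_zero) := by
        rw [zpow_zero]
        exact h2
      have h5 := (zpow_le_iff y hp hp0 _ _).mp h4.le
      have h6 := (zpow_le_iff y hp hp0 _ _).mp h4.ge
      omega
    rw [h1, h3, Int.cast_zero, zero_div]
  refine ⟨v, ⟨by simp only [v, dif_pos], ?_, ?_⟩, ?_⟩
  · intro x z hx hz
    have hxz := mul_ne_zero hx hz
    have e1 : y.valuation (x * z) ^ (m x hx * m z hz) =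
        y.valuation p ^ (c x hx * m z hz + c z hz * m x hx) := by
      have h0 : y.valuation p ≠ 0 := by
        rw [Ne, map_eq_zero]
        exact hp0
      rw [map_mul, mul_pow, pow_mul, hc x hx, mul_comm (m x hx), pow_mul (y.valuation z), hc z hz,
        zpow_add₀ h0, zpow_mul, zpow_mul, zpow_natCast, zpow_natCast]
    have hn1 : 1 ≤ m x hx * m z hz := Nat.one_le_iff_ne_zero.mpr
      (Nat.mul_ne_zero (by have := hm x hx; omega) (by have := hm z hz; omega))
    have h1 := (key (x * z) hxz _ _ hn1).mp e1.le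
    have h2 : v (x * z) ≤ ((c x hx * m z hz + c z hz * m x hx : ℤ) : ℝ) / ((m x hx * m z hz : ℕ) : ℝ) := by
      have h3 := hc _ hxz
      rw [hv _ hxz, div_le_div_iff₀ (hmR _ hxz) (by exact_mod_cast hn1)]
      have h4 : (y.valuation p ^ (c x hx * m z hz + c z hz * m x hx)) ^ (m _ hxz) ≤
          (y.valuation p ^ (c _ hxz)) ^ (m x hx * m z hz) := by
        rw [← e1, ← h3, ← pow_mul, ← pow_mul, mul_comm (m _ hxz)]
      rw [← zpow_natCast, ← zpow_natCast, ← zpow_mul, ← zpow_mul, zpow_le_iff y hp hp0] at h4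
      exact_mod_cast h4
    have h3 : v x + v z = ((c x hx * m z hz + c z hz * m x hx : ℤ) : ℝ) / ((m x hx * m z hz : ℕ) : ℝ) := by
      rw [hv x hx, hv z hz, div_add_div _ _ (hmR x hx).ne' (hmR z hz).ne']
      push_cast
      ring
    rw [h3]
    exact le_antisymm h2 h1
  · intro x z hx hz hxz
    rcases le_total (y.valuation x) (y.valuation z) with h1 | h1
    · have h2 : y.valuation (x + z) ≤ y.valuation z := (y.valuation.map_add x z).trans (max_le h1 le_rfl)
      exact (min_le_right _ _).trans ((mono _ _ hxz hz).mp h2)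
    · have h2 : y.valuation (x + z) ≤ y.valuation x := (y.valuation.map_add x z).trans (max_le le_rfl h1)
      exact (min_le_left _ _).trans ((mono _ _ hxz hx).mp h2)
  · intro x hx
    rw [← hv1, ← mono x 1 hx one_ne_zero, map_one, y.valuation_le_one_iff]

end real

section lim

variable {k K : Type} [Field k] [Field K] [Algebra k K]

theorem IsV_one {v : K → ℝ} (hv : F2Ch.IsV v) : v 1 = 0 := by
  have := hv.mul 1 1 one_ne_zero one_ne_zero
  rw [mul_one] at this
  linarith

theorem IsV_inv {v : K → ℝ} (hv : F2Ch.IsV v) {x : K} (hx : x ≠ 0) : v x⁻¹ = - v x := by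
  have := hv.mul x x⁻¹ hx (inv_ne_zero hx)
  rw [mul_inv_cancel₀ hx, IsV_one hv] at this
  linarith

/-- a lower bound for the values on a f.g. algebra -/
theorem lower (S : Set K) {b : K} (hb : b ∈ Algebra.adjoin k S) :
    ∃ n : ℝ, 0 ≤ n ∧ ∀ v : K → ℝ, F2Ch.IsV v → F2Ch.Triv k v → ∀ t : ℝ, 0 ≤ t →
      (∀ s ∈ S, - t ≤ v s) → - (n * t) ≤ v b := by
  induction hb using Algebra.adjoin_induction with
  | mem x hx => exact ⟨1, zero_le_one, fun v _ _ t _ h => by rw [one_mul]; exact h x hx⟩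
  | algebraMap c => exact ⟨0, le_rfl, fun v _ h2 t _ _ => by rw [h2 c]; simp⟩
  | add x y _ _ hx hy =>
    obtain ⟨n, hn, h1⟩ := hx
    obtain ⟨m, hm, h2⟩ := hy
    refine ⟨n + m, by positivity, fun v hv htr t ht h => ?_⟩
    have a1 := h1 v hv htr t ht h
    have a2 := h2 v hv htr t ht h
    have b1 : 0 ≤ n * t := mul_nonneg hn ht
    have b2 : 0 ≤ m * t := mul_nonneg hm ht
    by_cases hx0 : x = 0
    · rw [hx0, zero_add]
      nlinarith
    by_cases hy0 : y = 0
    · rw [hy0, add_zero]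
      nlinarith
    by_cases hxy : x + y = 0
    · rw [hxy, hv.zero]
      nlinarith
    have h3 := hv.add x y hx0 hy0 hxy
    rcases min_le_iff.mp h3 with h4 | h4 <;> nlinarith
  | mul x y _ _ hx hy =>
    obtain ⟨n, hn, h1⟩ := hx
    obtain ⟨m, hm, h2⟩ := hy
    refine ⟨n + m, by positivity, fun v hv htr t ht h => ?_⟩
    have a1 := h1 v hv htr t ht h
    have a2 := h2 v hv htr t ht h
    have b1 : 0 ≤ n * t := mul_nonneg hn ht
    have b2 : 0 ≤ m * t := mul_nonneg hm ht
    by_cases hx0 : x = 0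
    · rw [hx0, zero_mul, hv.zero]
      nlinarith
    by_cases hy0 : y = 0
    · rw [hy0, mul_zero, hv.zero]
      nlinarith
    rw [hv.mul x y hx0 hy0]
    nlinarith

end lim


section fin

variable {k K : Type} [Field k] [Field K] [Algebra k K]

/-- an element whose inverse lies in `D` and which is integral over `D` lies in `D` -/
theorem mem_of_int_inv (D : Subalgebra k K) {f : K} (hf : f ≠ 0) (hinv : f⁻¹ ∈ D)
    (hint : IsIntegral D f) : f ∈ D := by
  obtain ⟨P, hP, hP0⟩ := hint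
  have h0 : aeval f P = 0 := hP0
  rw [aeval_eq_sum_range] at h0
  rcases Nat.eq_zero_or_pos P.natDegree with hd | hd
  · exfalso
    rw [hd, zero_add, Finset.sum_range_one] at h0
    rw [hP.natDegree_eq_zero] at hd
    rw [hd, coeff_one_zero, pow_zero, one_smul] at h0
    exact one_ne_zero h0
  · rw [Finset.sum_range_succ] at h0
    have hlc : P.coeff P.natDegree = 1 := hP
    rw [hlc, one_smul] at h0
    have h1 : f ^ P.natDegree = - ∑ i ∈ Finset.range P.natDegree, P.coeff i • f ^ i := by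
      linear_combination h0
    have h2 : f = - ∑ i ∈ Finset.range P.natDegree,
        (P.coeff i : K) * f⁻¹ ^ (P.natDegree - 1 - i) := by
      have h3 : f = f ^ P.natDegree * f⁻¹ ^ (P.natDegree - 1) := by
        have h4 : P.natDegree = (P.natDegree - 1) + 1 := by omega
        conv_rhs => rw [h4, Nat.add_sub_cancel]
        rw [pow_succ, mul_right_comm, ← mul_pow, mul_inv_cancel₀ hf, one_pow, one_mul]
      conv_lhs => rw [h3, h1]
      rw [neg_mul, Finset.sum_mul]
      congr 1
      refine Finset.sum_congr rfl fun i hi => ?_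
      have hi' := Finset.mem_range.mp hi
      have h5 : P.natDegree - 1 = i + (P.natDegree - 1 - i) := by omega
      have h6 : (P.coeff i • f ^ i : K) = (P.coeff i : K) * f ^ i := rfl
      rw [h6]
      conv_lhs => rw [h5, pow_add]
      have h7 : (f ^ i * f⁻¹ ^ i : K) = 1 := by rw [← mul_pow, mul_inv_cancel₀ hf, one_pow]
      calc (P.coeff i : K) * f ^ i * (f⁻¹ ^ i * f⁻¹ ^ (P.natDegree - 1 - i))
          = (P.coeff i : K) * (f ^ i * f⁻¹ ^ i) * f⁻¹ ^ (P.natDegree - 1 - i) := by ring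
        _ = _ := by rw [h7, mul_one]
    rw [h2]
    refine neg_mem (sum_mem fun i _ => mul_mem (P.coeff i).2 (pow_mem hinv _))

/-- the discrete valuation for one finite set -/
theorem real_fin (F : Finset K) (h0 : ∀ f ∈ F, f ≠ 0)
    (hfrac : ∀ x : K, ∃ a ∈ Algebra.adjoin k (F : Set K), ∃ b ∈ Algebra.adjoin k (F : Set K),
      b ≠ 0 ∧ x * b = a)
    {f : K} (hfF : f ∈ F) (hf : f ∉ Algebra.adjoin k ((fun x : K => x⁻¹) '' (F : Set K))) :
    ∃ v : K → ℝ, F2Ch.IsV v ∧ F2Ch.Triv k v ∧ (∀ g ∈ F, v g ≤ 0) ∧ v f < 0 := by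
  set E : Subalgebra k K := Algebra.adjoin k ((fun x : K => x⁻¹) '' (F : Set K)) with hE
  have hEfg : E.FG := ⟨F.image (fun x => x⁻¹), by rw [Finset.coe_image]⟩
  have hft : Algebra.FiniteType k E := E.fg_iff_finiteType.mp hEfg
  obtain ⟨d, g, hg, hgi⟩ := exists_integral_inj_algHom_of_fg k E
  let g' : MvPolynomial (Fin d) k →ₐ[k] K := E.val.comp g
  let algK : Algebra (MvPolynomial (Fin d) k) K := g'.toRingHom.toAlgebra
  let algE : Algebra (MvPolynomial (Fin d) k) E := g.toRingHom.toAlgebra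
  have tow : IsScalarTower (MvPolynomial (Fin d) k) E K := IsScalarTower.of_algebraMap_eq fun _ => rfl
  have hEint : Algebra.IsIntegral (MvPolynomial (Fin d) k) E := ⟨fun x => hgi x⟩
  have hinj : Function.Injective (algebraMap (MvPolynomial (Fin d) k) K) := by
    intro P Q h
    exact hg (Subtype.ext h)
  have hinvE : ∀ x ∈ F, x⁻¹ ∈ E := fun x hx => Algebra.subset_adjoin ⟨x, hx, rfl⟩
  have halgF : ∀ x ∈ Algebra.adjoin k (F : Set K), IsAlgebraic E x := by
    intro x hx
    induction hx using Algebra.adjoin_induction with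
    | mem x hx =>
      have h1 : IsAlgebraic E x⁻¹ := isAlgebraic_algebraMap (⟨x⁻¹, hinvE x hx⟩ : E)
      have h2 := h1.inv
      rw [inv_inv] at h2
      exact h2
    | algebraMap c =>
      exact isAlgebraic_algebraMap (⟨algebraMap k K c, Subalgebra.algebraMap_mem _ c⟩ : E)
    | add x y _ _ hx hy => exact hx.add hy
    | mul x y _ _ hx hy => exact hx.mul hy
  have halgE : ∀ x : K, IsAlgebraic E x := by
    intro x
    obtain ⟨a, ha, b, hb, hb0, hab⟩ := hfrac x
    have h1 : x = a * b⁻¹ := by rw [← hab, mul_assoc, mul_inv_cancel₀ hb0, mul_one]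
    rw [h1]
    exact (halgF a ha).mul (halgF b hb).inv
  have halgA : ∀ x : K, IsAlgebraic (MvPolynomial (Fin d) k) x := fun x =>
    (halgE x).restrictScalars _
  have hni : ¬ IsIntegral (MvPolynomial (Fin d) k) f := fun h =>
    hf (mem_of_int_inv E (h0 f hfF) (hinvE f hfF) h.tower_top)
  obtain ⟨π, y, hπ, hy, hfy⟩ := exists_over hinj (halgA f) hni
  have hp0 : algebraMap (MvPolynomial (Fin d) k) K π ≠ 0 := by
    rw [Ne, map_eq_zero_iff _ hinj]
    exact hπ.ne_zero
  have hval : ∀ x : K, x ≠ 0 → ∃ m : ℕ, 1 ≤ m ∧ ∃ c : ℤ, y.valuation x ^ m =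
      y.valuation (algebraMap (MvPolynomial (Fin d) k) K π) ^ c := by
    intro x hx
    obtain ⟨P, hP, hP0⟩ := halgA x
    obtain ⟨m, hm, _, c, hc⟩ := hy.exists_zpow hπ hinj hx hP hP0
    exact ⟨m, hm, c, hc⟩
  obtain ⟨v, hv, hvy⟩ := real_val y hy.lt hp0 hval
  have hkk : ∀ c : k, algebraMap k K c ∈ y := by
    intro c
    have h1 := hy.mem (MvPolynomial.C c)
    have h2 : algebraMap (MvPolynomial (Fin d) k) K (MvPolynomial.C c) = algebraMap k K c :=
      g'.commutes c
    rwa [h2] at h1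
  have htriv : F2Ch.Triv k v := by
    intro c
    by_cases hc : c = 0
    · rw [hc, map_zero, hv.zero]
    have hc0 : algebraMap k K c ≠ 0 := by
      rw [Ne, map_eq_zero]
      exact hc
    have h1 : 0 ≤ v (algebraMap k K c) := (hvy _ hc0).mpr (hkk c)
    have h2 : 0 ≤ v (algebraMap k K c)⁻¹ := by
      rw [← map_inv₀]
      exact (hvy _ (by rw [map_inv₀]; exact inv_ne_zero hc0)).mpr (hkk _)
    rw [IsV_inv hv hc0] at h2
    linarith
  have hEy : ∀ x ∈ E, x ∈ y := by
    intro x hx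
    refine hy.mem_of_int ?_
    exact (hEint.isIntegral (⟨x, hx⟩ : E)).map (IsScalarTower.toAlgHom (MvPolynomial (Fin d) k) E K)
  refine ⟨v, hv, htriv, fun x hx => ?_, ?_⟩
  · have h1 : 0 ≤ v x⁻¹ := (hvy _ (inv_ne_zero (h0 x hx))).mpr (hEy _ (hinvE x hx))
    rw [IsV_inv hv (h0 x hx)] at h1
    linarith
  · by_contra hcon
    push Not at hcon
    exact hfy ((hvy f (h0 f hfF)).mp hcon)

end fin

section main

variable {k K : Type} [Field k] [Field K] [Algebra k K]

/-- scaling a real valuation -/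
theorem IsV_div {v : K → ℝ} (hv : F2Ch.IsV v) {m : ℝ} (hm : 0 < m) :
    F2Ch.IsV (fun x => v x / m) := by
  refine ⟨by simp only [hv.zero, zero_div], fun x y hx hy => ?_, fun x y hx hy hxy => ?_⟩
  · simp only [hv.mul x y hx hy, add_div]
  · have h := hv.add x y hx hy hxy
    rcases min_le_iff.mp h with h | h
    · exact min_le_iff.mpr (Or.inl (div_le_div_of_nonneg_right h hm.le))
    · exact min_le_iff.mpr (Or.inr (div_le_div_of_nonneg_right h hm.le))

/-- the normalised valuation for one finite set -/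
theorem norm_fin (S F : Finset K) (h0 : ∀ f ∈ F, f ≠ 0) (_hSF : S ⊆ F)
    (hgen : Algebra.adjoin k (F : Set K) = Algebra.adjoin k (S : Set K))
    (hfrac : ∀ x : K, ∃ a ∈ Algebra.adjoin k (F : Set K), ∃ b ∈ Algebra.adjoin k (F : Set K),
      b ≠ 0 ∧ x * b = a)
    {f : K} (hfF : f ∈ F) (hf : f ∉ Algebra.adjoin k ((fun x : K => x⁻¹) '' (F : Set K))) :
    ∃ v : K → ℝ, F2Ch.IsV v ∧ F2Ch.Triv k v ∧ (∀ g ∈ F, v g ≤ 0) ∧ (∀ s ∈ S, -1 ≤ v s) ∧
      ∃ s ∈ S, v s = -1 := by
  obtain ⟨v, hv, htr, hle, hlt⟩ := real_fin F h0 hfrac hfF hf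
  have hfS : f ∈ Algebra.adjoin k (S : Set K) := by
    rw [← hgen]
    exact Algebra.subset_adjoin hfF
  obtain ⟨n, _, hn⟩ := lower (k := k) (S : Set K) hfS
  have hex : ∃ s ∈ S, v s < 0 := by
    by_contra hcon
    push Not at hcon
    have h1 := hn v hv htr 0 le_rfl (fun s hs => by
      rw [neg_zero]
      exact hcon s (Finset.mem_coe.mp hs))
    rw [mul_zero, neg_zero] at h1
    linarith
  obtain ⟨s1, hs1, hs1v⟩ := hex
  obtain ⟨s0, hs0, hmin⟩ := S.exists_min_image v ⟨s1, hs1⟩
  have hneg : v s0 < 0 := lt_of_le_of_lt (hmin s1 hs1) hs1v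
  have hpos : 0 < - v s0 := by linarith
  refine ⟨fun x => v x / (- v s0), IsV_div hv hpos, fun c => ?_, fun g hg => ?_, fun s hs => ?_,
    s0, hs0, ?_⟩
  · simp only [htr c, zero_div]
  · exact div_nonpos_of_nonpos_of_nonneg (hle g hg) hpos.le
  · rw [le_div_iff₀ hpos]
    have := hmin s hs
    linarith
  · show v s0 / (- v s0) = -1
    rw [div_neg, div_self hneg.ne]

theorem adjoin_union_eq (B : Subalgebra k K) (S : Finset K) (hS : Algebra.adjoin k (S : Set K) = B)
    (T : Finset K) (hT : ∀ t ∈ T, t ∈ B) : Algebra.adjoin k ((S ∪ T : Finset K) : Set K) = B := by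
  refine le_antisymm (Algebra.adjoin_le ?_) ?_
  · intro x hx
    rw [Finset.coe_union] at hx
    rcases hx with hx | hx
    · rw [← hS]
      exact Algebra.subset_adjoin hx
    · exact hT x hx
  · rw [← hS]
    refine Algebra.adjoin_mono ?_
    rw [Finset.coe_union]
    exact Set.subset_union_left

/-- Section 0 of the dichotomy theorem: a nontrivial real valuation, nonpositive on `B - 0`. -/
theorem semigood (B : Subalgebra k K) (hB : B.FG)
    (hfrac : ∀ x : K, ∃ a ∈ B, ∃ b ∈ B, b ≠ 0 ∧ x * b = a)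
    (hF : ∀ F : Finset K, (∀ f ∈ F, f ∈ B ∧ f ≠ 0) → Algebra.adjoin k (F : Set K) = B →
      ∃ f ∈ F, f ∉ Algebra.adjoin k ((fun x : K => x⁻¹) '' (F : Set K))) :
    ∃ v : K → ℝ, F2Ch.IsV v ∧ F2Ch.Triv k v ∧ (∃ x, v x ≠ 0) ∧ ∀ b ∈ B, b ≠ 0 → v b ≤ 0 := by
  obtain ⟨S1, hS1⟩ := hB
  let S : Finset K := S1.erase 0
  have hS : Algebra.adjoin k (S : Set K) = B := by
    refine le_antisymm ?_ ?_
    · rw [← hS1]
      exact Algebra.adjoin_mono (by exact_mod_cast Finset.erase_subset _ _)
    · rw [← hS1]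
      refine Algebra.adjoin_le fun x hx => ?_
      by_cases hx0 : x = 0
      · rw [hx0]
        exact zero_mem _
      · exact Algebra.subset_adjoin (by exact_mod_cast Finset.mem_erase.mpr ⟨hx0, hx⟩)
  have hSB : ∀ s ∈ S, s ∈ B ∧ s ≠ 0 := by
    intro s hs
    refine ⟨?_, (Finset.mem_erase.mp hs).1⟩
    rw [← hS]
    exact Algebra.subset_adjoin (by exact_mod_cast hs)
  let FF : Finset K → Finset K := fun F => S ∪ F.filter (fun x => x ∈ B ∧ x ≠ 0)
  have hFF : ∀ F, ∀ f ∈ FF F, f ∈ B ∧ f ≠ 0 := by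
    intro F f hf
    rcases Finset.mem_union.mp hf with h | h
    · exact hSB f h
    · exact (Finset.mem_filter.mp h).2
  have hadj : ∀ F, Algebra.adjoin k ((FF F : Finset K) : Set K) = B := fun F =>
    adjoin_union_eq B S hS _ (fun t ht => (Finset.mem_filter.mp ht).2.1)
  have hex : ∀ F : Finset K, ∃ v : K → ℝ, F2Ch.IsV v ∧ F2Ch.Triv k v ∧ (∀ g ∈ FF F, v g ≤ 0) ∧
      (∀ s ∈ S, -1 ≤ v s) ∧ ∃ s ∈ S, v s = -1 := by
    intro F
    obtain ⟨f, hf, hfn⟩ := hF (FF F) (hFF F) (hadj F)
    refine norm_fin S (FF F) (fun f hf => (hFF F f hf).2) Finset.subset_union_left ?_ ?_ hf hfn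
    · rw [hadj F, hS]
    · rw [hadj F]
      exact hfrac
  choose w hw htr hle hge hone using hex
  -- the ultrafilter
  let U : Ultrafilter (Finset K) := Ultrafilter.of atTop
  have hU : (U : Filter (Finset K)) ≤ atTop := Ultrafilter.of_le _
  have hev : ∀ b ∈ B, b ≠ 0 → ∀ᶠ F in (U : Filter (Finset K)), w F b ≤ 0 := by
    intro b hb hb0
    have h1 : ∀ᶠ F in (atTop : Filter (Finset K)), w F b ≤ 0 := by
      filter_upwards [eventually_ge_atTop ({b} : Finset K)] with F hF1
      refine hle F b (Finset.mem_union_right _ (Finset.mem_filter.mpr ⟨?_, hb, hb0⟩))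
      exact hF1 (Finset.mem_singleton_self b)
    exact hU h1
  have hlow : ∀ b ∈ B, ∃ n : ℝ, ∀ F, -n ≤ w F b := by
    intro b hb
    rw [← hS] at hb
    obtain ⟨n, _, hn⟩ := lower (k := k) (S : Set K) hb
    refine ⟨n, fun F => ?_⟩
    have := hn (w F) (hw F) (htr F) 1 zero_le_one (fun s hs => hge F s (by exact_mod_cast hs))
    rwa [mul_one] at this
  have hlim : ∀ x : K, ∃ L : ℝ, Tendsto (fun F => w F x) (U : Filter (Finset K)) (𝓝 L) := by
    intro x
    obtain ⟨a, ha, b, hb, hb0, hab⟩ := hfrac x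
    by_cases hx : x = 0
    · refine ⟨0, ?_⟩
      have : (fun F => w F x) = fun _ => (0 : ℝ) := by
        funext F
        rw [hx, (hw F).zero]
      rw [this]
      exact tendsto_const_nhds
    have ha0 : a ≠ 0 := by
      rw [← hab]
      exact mul_ne_zero hx hb0
    obtain ⟨n, hn⟩ := hlow a ha
    obtain ⟨m, hm⟩ := hlow b hb
    have hIcc : ∀ᶠ F in (U : Filter (Finset K)), w F x ∈ Set.Icc (-n) m := by
      filter_upwards [hev a ha ha0, hev b hb hb0] with F h1 h2
      have h3 := (hw F).mul x b hx hb0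
      rw [hab] at h3
      have h4 := hn F
      have h5 := hm F
      constructor <;> linarith
    have hmap : ((U.map fun F => w F x : Ultrafilter ℝ) : Filter ℝ) ≤ 𝓟 (Set.Icc (-n) m) := by
      rw [le_principal_iff, Ultrafilter.coe_map, Filter.mem_map]
      exact hIcc
    obtain ⟨L, _, hL⟩ := isCompact_Icc.ultrafilter_le_nhds _ hmap
    exact ⟨L, hL⟩
  choose v hv using hlim
  have hzero : v 0 = 0 := by
    refine tendsto_nhds_unique (hv 0) ?_
    have : (fun F => w F (0 : K)) = fun _ => (0 : ℝ) := by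
      funext F
      rw [(hw F).zero]
    rw [this]
    exact tendsto_const_nhds
  refine ⟨v, ⟨hzero, fun x y hx hy => ?_, fun x y hx hy hxy => ?_⟩, fun c => ?_, ?_,
    fun b hb hb0 => le_of_tendsto (hv b) (hev b hb hb0)⟩
  · refine tendsto_nhds_unique (hv (x * y)) ?_
    refine ((hv x).add (hv y)).congr fun F => ?_
    rw [(hw F).mul x y hx hy]
  · exact le_of_tendsto_of_tendsto ((hv x).min (hv y)) (hv (x + y))
      (Eventually.of_forall fun F => (hw F).add x y hx hy hxy)
  · refine tendsto_nhds_unique (hv _) ?_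
    have : (fun F => w F (algebraMap k K c)) = fun _ => (0 : ℝ) := by
      funext F
      exact htr F c
    rw [this]
    exact tendsto_const_nhds
  · by_contra hcon
    push Not at hcon
    have h1 : Tendsto (fun F => ∑ s ∈ S, w F s) (U : Filter (Finset K)) (𝓝 (∑ s ∈ S, v s)) :=
      tendsto_finsetSum S fun s _ => hv s
    have h2 : ∑ s ∈ S, v s ≤ -1 := by
      refine le_of_tendsto h1 (Eventually.of_forall fun F => ?_)
      obtain ⟨s, hs, hs1⟩ := hone F
      rw [← Finset.add_sum_erase S _ hs, hs1]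
      have h3 : ∑ s ∈ S.erase s, w F s ≤ 0 := Finset.sum_nonpos fun t ht =>
        hle F t (Finset.mem_union_left _ (Finset.mem_of_mem_erase ht))
      linarith
    have h4 : ∑ s ∈ S, v s = 0 := Finset.sum_eq_zero fun s _ => hcon s
    linarith

end main

end Pool.Agent.FrD
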