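import Pool.Agent.Lib.MP_305fdd_al.Fr.D.Bal
import Pool.Agent.Lib.MP_305fdd_al.Fr.D.Semi

/-!
# MP_305fdd_al, F_r: the dichotomy theorem, part 11: the theorem
-/

set_option autoImplicit false

namespace Pool.Agent.FrD

/-- The dichotomy theorem. Let `B` be a finitely generated `k`-algebra that is a domain with fraction
field `K`. Either there is a nontrivial real valuation of `K/k` that is nonpositive on `B - 0`, or
there is a valuation ring of `K/k` of maximal rational rank for which the values of `B - 0` form a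
group. In the second case the basis of the value group may be taken in the finite set `F` of
generators, and `F` lies in `k[1/f : f ∈ F]`. -/
theorem dichotomy' {k K : Type} [Field k] [Field K] [Algebra k K] (B : Subalgebra k K)
    (hB : B.FG) (hfrac : ∀ x : K, ∃ a ∈ B, ∃ b ∈ B, b ≠ 0 ∧ x * b = a) :
    (∃ v : K → ℝ, F2Ch.IsV v ∧ F2Ch.Triv k v ∧ (∃ x, v x ≠ 0) ∧ ∀ b ∈ B, b ≠ 0 → v b ≤ 0) ∨
      ∃ (F : Finset K) (O : ValuationSubring K) (d : ℕ) (f : Fin d → K),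
        (∀ x ∈ F, x ∈ B ∧ x ≠ 0) ∧ Algebra.adjoin k (F : Set K) = B ∧
        (∀ x ∈ F, x ∈ Algebra.adjoin k ((fun x : K => x⁻¹) '' (F : Set K))) ∧
        Bal k B O f ∧ (∀ i, f i ∈ F) ∧
        ∃ m : K → ℕ, (∀ x ∈ F, 1 ≤ m x) ∧ O.valuation (∏ x ∈ F, x ^ m x) = 1 := by
  by_cases h : ∀ F : Finset K, (∀ f ∈ F, f ∈ B ∧ f ≠ 0) → Algebra.adjoin k (F : Set K) = B →
      ∃ f ∈ F, f ∉ Algebra.adjoin k ((fun x : K => x⁻¹) '' (F : Set K))
  · exact Or.inl (semigood B hB hfrac h)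
  · right
    push Not at h
    obtain ⟨F, hF, hFB, hsub⟩ := h
    obtain ⟨O, d, f, h1, h2, h3⟩ := exists_bal F (fun f hf => (hF f hf).2)
      (by rw [hFB]; exact hfrac) hsub
    rw [hFB] at h1
    exact ⟨F, O, d, f, hF, hFB, hsub, h1, h2, h3⟩

/-- The dichotomy theorem, short form. -/
theorem dichotomy {k K : Type} [Field k] [Field K] [Algebra k K] (B : Subalgebra k K)
    (hB : B.FG) (hfrac : ∀ x : K, ∃ a ∈ B, ∃ b ∈ B, b ≠ 0 ∧ x * b = a) :
    (∃ v : K → ℝ, F2Ch.IsV v ∧ F2Ch.Triv k v ∧ (∃ x, v x ≠ 0) ∧ ∀ b ∈ B, b ≠ 0 → v b ≤ 0) ∨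
      ∃ (O : ValuationSubring K) (d : ℕ) (f : Fin d → K), Bal k B O f := by
  rcases dichotomy' B hB hfrac with h | ⟨_, O, d, f, _, _, _, h, _⟩
  · exact Or.inl h
  · exact Or.inr ⟨O, d, f, h⟩

end Pool.Agent.FrD
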