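import Pool.Agent.Lib.MP_305fdd_al.Fr.D.LemP2

/-!
# MP_305fdd_al, F_r: the dichotomy theorem, part 10: balanced valuation rings
-/

set_option autoImplicit false
set_option linter.unusedSectionVars false

namespace Pool.Agent.FrD

open Polynomial
open scoped Classical

/-- `O` is a valuation ring of `K/k` of maximal rational rank: the values of `f i` are a `ℚ`-basis of
the value group, `f` is a transcendence basis, the residue field is algebraic over `k`, and the
values of the nonzero elements of `B` form a group. -/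
structure Bal (k : Type) {K : Type} [Field k] [Field K] [Algebra k K] (B : Subalgebra k K)
    (O : ValuationSubring K) {d : ℕ} (f : Fin d → K) : Prop where
  triv : ∀ c : k, algebraMap k K c ∈ O
  memB : ∀ i, f i ∈ B
  ne : ∀ i, f i ≠ 0
  indep : ∀ a : Fin d → ℤ, O.valuation (∏ i, f i ^ a i) = 1 → a = 0
  dep : ∀ x : K, x ≠ 0 → ∃ n : ℕ, 1 ≤ n ∧ ∃ a : Fin d → ℤ,
    O.valuation (x ^ n * ∏ i, f i ^ a i) = 1
  tb : IsTranscendenceBasis k f
  res : ∀ x ∈ O, ∃ P : k[X], P ≠ 0 ∧ O.valuation (aeval x P) < 1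
  bal : ∀ b ∈ B, b ≠ 0 → ∃ b' ∈ B, O.valuation (b * b') = 1

/-- More precise form: `F` is a finite set of nonzero elements contained in `k[1/f : f ∈ F]`. -/
theorem exists_bal {k K : Type} [Field k] [Field K] [Algebra k K] (F : Finset K)
    (hF0 : ∀ f ∈ F, f ≠ 0)
    (hfrac : ∀ x : K, ∃ a ∈ Algebra.adjoin k (F : Set K), ∃ b ∈ Algebra.adjoin k (F : Set K),
      b ≠ 0 ∧ x * b = a)
    (hF : ∀ f ∈ F, f ∈ Algebra.adjoin k ((fun x : K => x⁻¹) '' (F : Set K))) :
    ∃ (O : ValuationSubring K) (d : ℕ) (f : Fin d → K), Bal k (Algebra.adjoin k (F : Set K)) O f ∧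
      (∀ i, f i ∈ F) ∧ ∃ m : K → ℕ, (∀ x ∈ F, 1 ≤ m x) ∧ O.valuation (∏ x ∈ F, x ^ m x) = 1 := by
  set D := Algebra.adjoin k ((fun x : K => x⁻¹) '' (F : Set K)) with hD
  set B := Algebra.adjoin k (F : Set K) with hB
  have hBD : B ≤ D := by
    rw [hB, Algebra.adjoin_le_iff]
    exact fun x hx => hF x hx
  have hFB : ∀ x ∈ F, x ∈ B := fun x hx => Algebra.subset_adjoin hx
  have hprodB : ∏ x ∈ F, x ∈ B := prod_mem hFB
  have hprod0 : ∏ x ∈ F, x ≠ 0 := Finset.prod_ne_zero_iff.mpr hF0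
  have halg : ∀ x : K, IsAlgebraic D x := by
    intro x
    obtain ⟨a, ha, b, hb, hb0, hx⟩ := hfrac x
    have h1 : x = a * b⁻¹ := by
      rw [← hx, mul_assoc, mul_inv_cancel₀ hb0, mul_one]
    rw [h1]
    have ha' : IsAlgebraic D a := isAlgebraic_algebraMap (⟨a, hBD ha⟩ : D)
    have hb' : IsAlgebraic D b := isAlgebraic_algebraMap (⟨b, hBD hb⟩ : D)
    exact ha'.mul hb'.inv
  have hint : IsIntegral D (∏ x ∈ F, x) :=
    isIntegral_algebraMap (x := (⟨_, hBD hprodB⟩ : D))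
  obtain ⟨V, I, H⟩ := lemP k F K (fun x => x⁻¹) _ hprod0 halg hint
  have hV0 : ∀ x : K, x ≠ 0 → V.valuation x ≠ 0 := by
    intro x hx
    rw [Ne, map_eq_zero]
    exact hx
  let φ := I.equivFin
  let f : Fin I.card → K := fun i => ((φ.symm i : I) : K)
  have hfI : ∀ i, f i ∈ I := fun i => (φ.symm i).2
  have hfF : ∀ i, f i ∈ F := fun i => H.sub (hfI i)
  -- products over `I` and over `Fin`
  have hprodI : ∀ a : K → ℤ, ∏ i, f i ^ a (f i) = ∏ x ∈ I, x ^ a x := by
    intro a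
    rw [← Finset.prod_coe_sort I, ← Equiv.prod_comp φ.symm]
  have hIinv : ∀ a : K → ℤ, ∏ x ∈ I, x ^ a x = ∏ x ∈ I, (x⁻¹) ^ (-(a x)) := by
    intro a
    refine Finset.prod_congr rfl fun x _ => ?_
    rw [inv_zpow', neg_neg]
  have hext : ∀ a : Fin I.card → ℤ, ∃ a' : K → ℤ, ∀ i, a' (f i) = a i := by
    intro a
    refine ⟨fun x => if h : x ∈ I then a (φ ⟨x, h⟩) else 0, fun i => ?_⟩
    have h1 : (⟨f i, hfI i⟩ : I) = φ.symm i := rfl
    simp only [dif_pos (hfI i), h1, Equiv.apply_symm_apply]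
  -- the positive relation
  obtain ⟨n, hn, l, _, hrel⟩ := H.rel
  have hm : V.valuation (∏ x ∈ F, x ^ (n + l x)) = 1 := by
    have h1 : ∏ x ∈ F, x ^ (n + l x) = (∏ x ∈ F, x) ^ n * ∏ x ∈ F, x ^ l x := by
      rw [← Finset.prod_pow, ← Finset.prod_mul_distrib]
      exact Finset.prod_congr rfl fun x _ => pow_add x n (l x)
    have h2 : ∏ x ∈ F, x⁻¹ ^ l x = (∏ x ∈ F, x ^ l x)⁻¹ := by
      rw [← Finset.prod_inv_distrib]
      exact Finset.prod_congr rfl fun x _ => inv_pow x (l x)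
    have h3 : ∏ x ∈ F, x ^ l x ≠ 0 :=
      Finset.prod_ne_zero_iff.mpr fun x hx => pow_ne_zero _ (hF0 x hx)
    rw [h1, map_mul, hrel, h2, map_inv₀, inv_mul_cancel₀ (hV0 _ h3)]
  have hindep : ∀ a : Fin I.card → ℤ, V.valuation (∏ i, f i ^ a i) = 1 → a = 0 := by
    intro a ha
    obtain ⟨a', ha'⟩ := hext a
    have h1 : ∏ i, f i ^ a i = ∏ x ∈ I, (x⁻¹) ^ (-(a' x)) := by
      rw [← hIinv, ← hprodI]
      exact Finset.prod_congr rfl fun i _ => by rw [ha']
    rw [h1] at ha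
    have h2 := H.indep (fun x => -(a' x)) ha
    funext i
    have h3 := h2 (f i) (hfI i)
    simp only [ha'] at h3
    exact neg_eq_zero.mp h3
  have hdep : ∀ x : K, x ≠ 0 → ∃ n : ℕ, 1 ≤ n ∧ ∃ a : Fin I.card → ℤ,
      V.valuation (x ^ n * ∏ i, f i ^ a i) = 1 := by
    intro x hx
    obtain ⟨n, hn, a, ha⟩ := H.dep x hx
    refine ⟨n, hn, fun i => -(a (f i)), ?_⟩
    have h1 := hprodI (fun x => -(a x))
    rw [h1, hIinv]
    simp only [neg_neg]
    exact ha
  refine ⟨V, I.card, f, ⟨H.triv, fun i => hFB _ (hfF i), fun i => hF0 _ (hfF i), hindep, hdep, ?_,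
    H.res, ?_⟩, hfF, fun x => n + l x, fun x _ => le_trans hn (Nat.le_add_right _ _), hm⟩
  · refine indep_basis V H.triv f (fun i => hF0 _ (hfF i)) hindep ?_
    rw [Fintype.card_fin]
    exact H.td
  · intro b hb hb0
    obtain ⟨m, hm1, a, ha⟩ := H.dep b hb0
    -- `V (b ^ m) = V (∏ x ^ a x)`
    set M : ℕ := ∑ x ∈ I, (a x).natAbs with hM
    have hMa : ∀ x ∈ I, (0 : ℤ) ≤ -(a x) + M := by
      intro x hx
      have h1 : (a x).natAbs ≤ M :=
        Finset.single_le_sum (f := fun x => (a x).natAbs) (fun _ _ => Nat.zero_le _) hx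
      have h2 : a x ≤ ((a x).natAbs : ℤ) := Int.le_natAbs
      have h3 : ((a x).natAbs : ℤ) ≤ M := by exact_mod_cast h1
      omega
    have hw : ∀ x ∈ I, (0 : ℤ) ≤ -(a x) + M * (n + l x : ℕ) := by
      intro x hx
      have h1 := hMa x hx
      have h2 : (M : ℤ) ≤ M * (n + l x : ℕ) := by
        have : 1 ≤ n + l x := le_trans hn (Nat.le_add_right _ _)
        exact_mod_cast Nat.le_mul_of_pos_right M this
      omega
    -- the element
    let b' : K := b ^ (m - 1) * ((∏ x ∈ I, (x⁻¹) ^ (a x)) * (∏ x ∈ F, x ^ (n + l x)) ^ M)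
    have hb'B : b' ∈ B := by
      refine mul_mem (pow_mem hb _) ?_
      have h1 : (∏ x ∈ I, (x⁻¹) ^ (a x)) * (∏ x ∈ F, x ^ (n + l x)) ^ M =
          (∏ x ∈ I, x ^ ((-(a x) + M * (n + l x : ℕ)).toNat)) *
            (∏ x ∈ F \ I, x ^ (n + l x)) ^ M := by
        rw [← Finset.prod_sdiff H.sub, mul_pow, ← Finset.prod_pow I]
        have h2 : ∀ x ∈ I, x ^ ((-(a x) + M * (n + l x : ℕ)).toNat) =
            (x⁻¹) ^ (a x) * (x ^ (n + l x)) ^ M := by
          intro x hx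
          have hx0 : x ≠ 0 := hF0 x (H.sub hx)
          rw [← zpow_natCast x (Int.toNat _), Int.toNat_of_nonneg (hw x hx), zpow_add₀ hx0,
            inv_zpow', ← pow_mul, ← zpow_natCast x ((n + l x) * M)]
          congr 2
          push_cast
          ring
        rw [Finset.prod_congr rfl h2, Finset.prod_mul_distrib]
        ring
      rw [h1]
      refine mul_mem (prod_mem fun x hx => pow_mem (hFB x (H.sub hx)) _) (pow_mem (prod_mem ?_) _)
      intro x hx
      exact pow_mem (hFB x (Finset.sdiff_subset hx)) _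
    refine ⟨b', hb'B, ?_⟩
    have h1 : b * b' = (b ^ m * ∏ x ∈ I, (x⁻¹) ^ (a x)) * (∏ x ∈ F, x ^ (n + l x)) ^ M := by
      have h2 : b ^ m = b * b ^ (m - 1) := by
        rw [← pow_succ', Nat.sub_add_cancel hm1]
      rw [h2]
      simp only [b']
      ring
    rw [h1, map_mul, ha, map_pow, hm, one_pow, one_mul]

end Pool.Agent.FrD
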