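import Pool.Agent.Lib.MP_305fdd_al.Fr.D.Help

/-!
# MP_305fdd_al, F_r: the dichotomy theorem, part 6: the case of a positive exponent
-/

set_option autoImplicit false
set_option linter.unusedSectionVars false

namespace Pool.Agent.FrD

open Polynomial
open scoped Classical

universe u v w

variable {k : Type u} {κ : Type v} [Field k] [Field κ] [Algebra k κ]

theorem mem_of_pow_mem (V : ValuationSubring κ) {x : κ} {b : ℕ} (hb : 1 ≤ b) (h : x ^ b ∈ V) :
    x ∈ V := by
  rw [← V.valuation_le_one_iff, map_pow] at h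
  rw [← V.valuation_le_one_iff]
  by_contra hcon
  push Not at hcon
  exact absurd h (not_le.mpr (one_lt_pow₀ hcon (by omega)))

theorem not_nonunit_of_unit (V : ValuationSubring κ) {x : κ} (h : V.valuation x < 1) :
    x⁻¹ ∉ V ∨ x = 0 := by
  by_cases hx : x = 0
  · exact Or.inr hx
  · left
    rw [← V.valuation_le_one_iff, map_inv₀, not_le]
    refine one_lt_inv₀ ?_ |>.mpr h
    rw [zero_lt_iff, Ne, map_eq_zero]
    exact hx

/-- two-sided integrality -/
theorem int_both (S : Set κ) {s q : κ} (h1 : IsIntegral (Algebra.adjoin k (insert s S)) q)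
    (h2 : IsIntegral (Algebra.adjoin k (insert s⁻¹ S)) q) : IsIntegral (Algebra.adjoin k S) q := by
  rw [int_iff] at h1 h2 ⊢
  intro V hV
  have hk : ∀ c : k, algebraMap k κ c ∈ V := fun c => hV _ (Subalgebra.algebraMap_mem _ c)
  have hS : ∀ x ∈ S, x ∈ V := fun x hx => hV _ (Algebra.subset_adjoin hx)
  rcases V.mem_or_inv_mem s with hs | hs
  · refine h1 V fun d hd => adjoin_sub _ V hk ?_ hd
    intro x hx
    rcases Set.mem_insert_iff.mp hx with rfl | hx
    · exact hs
    · exact hS x hx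
  · refine h2 V fun d hd => adjoin_sub _ V hk ?_ hd
    intro x hx
    rcases Set.mem_insert_iff.mp hx with rfl | hx
    · exact hs
    · exact hS x hx

theorem caseB1_int (S : Set κ) {s h : κ} {b a : ℕ} (hb : 1 ≤ b) (hs : s ≠ 0)
    (hh : IsIntegral (Algebra.adjoin k (insert s S)) h)
    (hq : IsIntegral (Algebra.adjoin k (insert s⁻¹ S)) (h ^ b * s ^ a)) :
    IsIntegral (Algebra.adjoin k S) h := by
  have hsI : IsIntegral (Algebra.adjoin k (insert s S)) s :=
    isIntegral_algebraMap (x := (⟨s, Algebra.subset_adjoin (Set.mem_insert _ _)⟩ :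
      Algebra.adjoin k (insert s S)))
  have hq' : IsIntegral (Algebra.adjoin k S) (h ^ b * s ^ a) :=
    int_both S ((hh.pow b).mul (hsI.pow a)) hq
  rw [int_iff] at hq' hh ⊢
  intro V hV
  have hk : ∀ c : k, algebraMap k κ c ∈ V := fun c => hV _ (Subalgebra.algebraMap_mem _ c)
  have hS : ∀ x ∈ S, x ∈ V := fun x hx => hV _ (Algebra.subset_adjoin hx)
  rcases V.mem_or_inv_mem s with hsV | hsV
  · refine hh V fun d hd => adjoin_sub _ V hk ?_ hd
    intro x hx
    rcases Set.mem_insert_iff.mp hx with rfl | hx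
    · exact hsV
    · exact hS x hx
  · refine mem_of_pow_mem V hb ?_
    have h1 : h ^ b = h ^ b * s ^ a * s⁻¹ ^ a := by
      rw [mul_assoc, ← mul_pow, mul_inv_cancel₀ hs, one_pow, mul_one]
    rw [h1]
    exact V.mul_mem _ _ (hq' V hV) (V.pow_mem hsV a)

theorem caseB1_alg (S : Set κ) {s h : κ} {b a : ℕ} (ha : 1 ≤ a) (hs : s ≠ 0)
    (hh0 : h ≠ 0) (hh : IsIntegral (Algebra.adjoin k (insert s S)) h)
    (hq : IsIntegral (Algebra.adjoin k (insert s⁻¹ S)) (h ^ b * s ^ a)) :
    IsAlgebraic (Algebra.adjoin k S) s := by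
  have hsI : IsIntegral (Algebra.adjoin k (insert s S)) s :=
    isIntegral_algebraMap (x := (⟨s, Algebra.subset_adjoin (Set.mem_insert _ _)⟩ :
      Algebra.adjoin k (insert s S)))
  have hq' : IsIntegral (Algebra.adjoin k S) (h ^ b * s ^ a) :=
    int_both S ((hh.pow b).mul (hsI.pow a)) hq
  by_contra hcon
  let D' := Algebra.adjoin k S
  let Oc : Subalgebra D' κ := Subalgebra.algebraicClosure D' κ
  let R1 : Subalgebra Oc κ := Algebra.adjoin Oc {s}
  have hsR : s ∈ R1 := Algebra.subset_adjoin rfl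
  have hOcR : ∀ x ∈ Oc, x ∈ R1 := fun x hx => R1.algebraMap_mem ⟨x, hx⟩
  let s1 : R1.toSubring := ⟨s, hsR⟩
  have hne : Ideal.span {s1} ≠ ⊤ := by
    intro htop
    have h1 : (1 : R1.toSubring) ∈ Ideal.span {s1} := by rw [htop]; trivial
    obtain ⟨r, hr⟩ := Ideal.mem_span_singleton'.mp h1
    have hr' : (r : κ) * s = 1 := congrArg Subtype.val hr
    have hrR : (r : κ) ∈ Algebra.adjoin Oc {s} := r.2
    rw [Algebra.adjoin_singleton_eq_range_aeval] at hrR
    obtain ⟨p, hp⟩ := hrR
    have hp' : aeval s p = (r : κ) := hp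
    have halg : IsAlgebraic Oc s := by
      refine ⟨p * X - 1, ?_, ?_⟩
      · intro h0
        have h2 := congrArg (fun P : Oc[X] => P.coeff 0) h0
        simp only [coeff_sub, mul_coeff_zero, coeff_X_zero, mul_zero, coeff_one_zero, zero_sub,
          coeff_zero] at h2
        exact one_ne_zero (neg_eq_zero.mp h2)
      · rw [map_sub, map_mul, aeval_X, map_one, hp', hr', sub_self]
    exact hcon (halg.restrictScalars D')
  obtain ⟨V, hRV, hV⟩ := Ideal.image_subset_nonunits_valuationSubring _ hne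
  have hsV : V.valuation s < 1 :=
    V.mem_nonunits_iff.mp (hV ⟨s1, Ideal.subset_span rfl, rfl⟩)
  have hOcV : ∀ x : κ, IsAlgebraic D' x → x ∈ V := fun x hx => hRV (hOcR x hx)
  have hq0 : h ^ b * s ^ a ≠ 0 := mul_ne_zero (pow_ne_zero _ hh0) (pow_ne_zero _ hs)
  have hqV : V.valuation (h ^ b * s ^ a) = 1 := by
    rw [val_eq_one_iff]
    exact ⟨hOcV _ hq'.isAlgebraic, hOcV _ hq'.isAlgebraic.inv, hq0⟩
  have hhV : h ∈ V := by
    rw [int_iff] at hh
    refine hh V fun d hd => adjoin_sub _ V (fun c => ?_) ?_ hd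
    · exact hOcV _ (isAlgebraic_algebraMap (⟨algebraMap k κ c, Subalgebra.algebraMap_mem _ c⟩ : D'))
    · intro x hx
      rcases Set.mem_insert_iff.mp hx with rfl | hx
      · exact hRV hsR
      · exact hOcV _ (isAlgebraic_algebraMap (⟨x, Algebra.subset_adjoin hx⟩ : D'))
  rw [map_mul, map_pow, map_pow] at hqV
  have h1 : V.valuation h ^ b ≤ 1 := pow_le_one₀ zero_le ((V.valuation_le_one_iff _).mpr hhV)
  have h2 : V.valuation s ^ a < 1 := pow_lt_one₀ zero_le hsV (by omega)
  have h3 : V.valuation h ^ b * V.valuation s ^ a < 1 :=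
    lt_of_le_of_lt (mul_le_of_le_one_left zero_le h1) h2
  exact h3.ne hqV

end Pool.Agent.FrD
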