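import Pool.Agent.Lib.MP_305fdd_al.Fr.D.Val

/-!
# MP_305fdd_al, F_r: the dichotomy theorem, part 4: residues and composite valuation rings
-/

set_option autoImplicit false

namespace Pool.Agent.FrD

open scoped Classical

universe u

variable {K : Type u} [Field K]

/-- the residue, `0` outside the valuation ring -/
noncomputable def rs (y : ValuationSubring K) (x : K) : IsLocalRing.ResidueField y :=
  if h : x ∈ y then IsLocalRing.residue y ⟨x, h⟩ else 0

theorem rs_of_mem (y : ValuationSubring K) {x : K} (h : x ∈ y) :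
    rs y x = IsLocalRing.residue y ⟨x, h⟩ := dif_pos h

theorem rs_one (y : ValuationSubring K) : rs y 1 = 1 := by
  rw [rs_of_mem y y.one_mem]
  exact map_one _

theorem rs_mul (y : ValuationSubring K) {x z : K} (hx : x ∈ y) (hz : z ∈ y) :
    rs y (x * z) = rs y x * rs y z := by
  rw [rs_of_mem y hx, rs_of_mem y hz, rs_of_mem y (y.mul_mem _ _ hx hz), ← map_mul]
  rfl

theorem rs_add (y : ValuationSubring K) {x z : K} (hx : x ∈ y) (hz : z ∈ y) :
    rs y (x + z) = rs y x + rs y z := by
  rw [rs_of_mem y hx, rs_of_mem y hz, rs_of_mem y (y.add_mem _ _ hx hz), ← map_add]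
  rfl

theorem val_eq_one_iff (V : ValuationSubring K) (x : K) :
    V.valuation x = 1 ↔ x ∈ V ∧ x⁻¹ ∈ V ∧ x ≠ 0 := by
  constructor
  · intro h
    refine ⟨(V.valuation_le_one_iff x).mp h.le, (V.valuation_le_one_iff _).mp ?_, ?_⟩
    · rw [map_inv₀, h, inv_one]
    · rintro rfl
      rw [map_zero] at h
      exact zero_ne_one h
  · rintro ⟨h1, h2, h3⟩
    refine le_antisymm ((V.valuation_le_one_iff x).mpr h1) ?_
    have := (V.valuation_le_one_iff _).mpr h2
    rw [map_inv₀] at this
    have h4 : 0 < V.valuation x := by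
      rw [zero_lt_iff, Ne, map_eq_zero]
      exact h3
    exact (inv_le_one₀ h4).mp this

theorem rs_eq_zero_iff (y : ValuationSubring K) {x : K} (h : x ∈ y) :
    rs y x = 0 ↔ y.valuation x < 1 := by
  rw [rs_of_mem y h, IsLocalRing.residue_eq_zero_iff, ValuationSubring.valuation_lt_one_iff]

theorem rs_ne_zero_iff (y : ValuationSubring K) {x : K} :
    rs y x ≠ 0 ↔ y.valuation x = 1 := by
  by_cases h : x ∈ y
  · rw [Ne, rs_eq_zero_iff y h, not_lt]
    constructor
    · intro h1
      exact le_antisymm ((y.valuation_le_one_iff x).mpr h) h1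
    · intro h1
      exact h1.ge
  · constructor
    · intro h1
      exact absurd (dif_neg h) h1
    · intro h1
      exact absurd ((y.valuation_le_one_iff x).mp h1.le) h

theorem rs_inv (y : ValuationSubring K) {x : K} (h : y.valuation x = 1) :
    rs y x⁻¹ = (rs y x)⁻¹ := by
  obtain ⟨h1, h2, h3⟩ := (val_eq_one_iff y x).mp h
  have h4 : rs y x⁻¹ * rs y x = 1 := by
    rw [← rs_mul y h2 h1, inv_mul_cancel₀ h3, rs_one]
  exact eq_inv_of_mul_eq_one_left h4

theorem rs_pow (y : ValuationSubring K) {x : K} (h : x ∈ y) (n : ℕ) :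
    rs y (x ^ n) = rs y x ^ n := by
  induction n with
  | zero => rw [pow_zero, pow_zero, rs_one]
  | succ n ih => rw [pow_succ, pow_succ, rs_mul y (y.pow_mem h n) h, ih]

theorem rs_zpow (y : ValuationSubring K) {x : K} (h : y.valuation x = 1) (n : ℤ) :
    rs y (x ^ n) = rs y x ^ n := by
  obtain ⟨h1, h2, h3⟩ := (val_eq_one_iff y x).mp h
  cases n with
  | ofNat n => rw [Int.ofNat_eq_natCast, zpow_natCast, zpow_natCast, rs_pow y h1]
  | negSucc n =>
    rw [zpow_negSucc, zpow_negSucc, rs_inv, rs_pow y h1]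
    rw [map_pow, h, one_pow]

theorem rs_prod (y : ValuationSubring K) {ι : Type*} (s : Finset ι) (f : ι → K)
    (h : ∀ i ∈ s, f i ∈ y) : rs y (∏ i ∈ s, f i) = ∏ i ∈ s, rs y (f i) := by
  induction s using Finset.induction_on with
  | empty => rw [Finset.prod_empty, Finset.prod_empty, rs_one]
  | insert a s ha ih =>
    rw [Finset.prod_insert ha, Finset.prod_insert ha, rs_mul y (h a (Finset.mem_insert_self _ _))
      (prod_mem fun i hi => h i (Finset.mem_insert_of_mem hi)),
      ih fun i hi => h i (Finset.mem_insert_of_mem hi)]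

/-- the composite of a valuation ring with a valuation ring of its residue field -/
noncomputable def comp (y : ValuationSubring K) (W : ValuationSubring (IsLocalRing.ResidueField y)) :
    ValuationSubring K where
  carrier := {x | x ∈ y ∧ rs y x ∈ W}
  mul_mem' := by
    rintro a b ⟨ha, ha'⟩ ⟨hb, hb'⟩
    refine ⟨y.mul_mem _ _ ha hb, ?_⟩
    rw [rs_mul y ha hb]
    exact W.mul_mem _ _ ha' hb'
  one_mem' := ⟨y.one_mem, by rw [rs_one]; exact W.one_mem⟩
  add_mem' := by
    rintro a b ⟨ha, ha'⟩ ⟨hb, hb'⟩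
    refine ⟨y.add_mem _ _ ha hb, ?_⟩
    rw [rs_add y ha hb]
    exact W.add_mem _ _ ha' hb'
  zero_mem' := by
    refine ⟨y.zero_mem, ?_⟩
    rw [(rs_eq_zero_iff y y.zero_mem).mpr (by rw [map_zero]; exact zero_lt_one)]
    exact W.zero_mem
  neg_mem' := by
    rintro a ⟨ha, ha'⟩
    refine ⟨y.neg_mem _ ha, ?_⟩
    have : rs y (-a) = - rs y a := by
      have h1 := rs_add y (y.neg_mem _ ha) ha
      rw [neg_add_cancel] at h1
      have h2 : rs y (0 : K) = 0 :=
        (rs_eq_zero_iff y y.zero_mem).mpr (by rw [map_zero]; exact zero_lt_one)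
      rw [h2] at h1
      exact eq_neg_of_add_eq_zero_left h1.symm
    rw [this]
    exact W.neg_mem _ ha'
  mem_or_inv_mem' := by
    intro x
    by_cases hx : y.valuation x = 1
    · obtain ⟨h1, h2, h3⟩ := (val_eq_one_iff y x).mp hx
      rcases W.mem_or_inv_mem (rs y x) with h | h
      · exact Or.inl ⟨h1, h⟩
      · refine Or.inr ⟨h2, ?_⟩
        rw [rs_inv y hx]
        exact h
    · rcases lt_or_gt_of_ne hx with h | h
      · left
        have hm : x ∈ y := (y.valuation_le_one_iff x).mp h.le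
        refine ⟨hm, ?_⟩
        rw [(rs_eq_zero_iff y hm).mpr h]
        exact W.zero_mem
      · right
        have h' : y.valuation x⁻¹ < 1 := by
          rw [map_inv₀]
          exact inv_lt_one_of_one_lt₀ h
        have hm : x⁻¹ ∈ y := (y.valuation_le_one_iff _).mp h'.le
        refine ⟨hm, ?_⟩
        rw [(rs_eq_zero_iff y hm).mpr h']
        exact W.zero_mem

theorem mem_comp {y : ValuationSubring K} {W : ValuationSubring (IsLocalRing.ResidueField y)}
    {x : K} : x ∈ comp y W ↔ x ∈ y ∧ rs y x ∈ W := Iff.rfl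

theorem comp_val_one {y : ValuationSubring K} {W : ValuationSubring (IsLocalRing.ResidueField y)}
    {x : K} : (comp y W).valuation x = 1 ↔ y.valuation x = 1 ∧ W.valuation (rs y x) = 1 := by
  rw [val_eq_one_iff, mem_comp, mem_comp]
  constructor
  · rintro ⟨⟨h1, h2⟩, ⟨h3, h4⟩, h5⟩
    have h6 : y.valuation x = 1 := (val_eq_one_iff y x).mpr ⟨h1, h3, h5⟩
    refine ⟨h6, (val_eq_one_iff W _).mpr ⟨h2, ?_, rs_ne_zero_iff y |>.mpr h6⟩⟩
    rwa [rs_inv y h6] at h4
  · rintro ⟨h1, h2⟩
    obtain ⟨a1, a2, a3⟩ := (val_eq_one_iff y x).mp h1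
    obtain ⟨b1, b2, _⟩ := (val_eq_one_iff W _).mp h2
    refine ⟨⟨a1, b1⟩, ⟨a2, ?_⟩, a3⟩
    rwa [rs_inv y h1]

theorem comp_nonunit {y : ValuationSubring K} {W : ValuationSubring (IsLocalRing.ResidueField y)}
    {x : K} (hx : x ∈ y) (h : W.valuation (rs y x) < 1) : (comp y W).valuation x < 1 := by
  have h1 : x ∈ comp y W := ⟨hx, (W.valuation_le_one_iff _).mp h.le⟩
  refine lt_of_le_of_ne (((comp y W).valuation_le_one_iff x).mpr h1) ?_
  intro h2
  exact h.ne (comp_val_one.mp h2).2

end Pool.Agent.FrD
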