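import Pool.Agent.Lib.MP_305fdd_al.Fr.D.LemM
import Pool.Agent.Lib.MP_305fdd_al.Fr.D.Comp

/-!
# MP_305fdd_al, F_r: the dichotomy theorem, part 5: auxiliary facts for Lemma P
-/

set_option autoImplicit false
set_option linter.unusedSectionVars false

namespace Pool.Agent.FrD

open Polynomial
open scoped Classical

universe u v w

section int

variable {k : Type u} {κ : Type v} [Field k] [Field κ] [Algebra k κ]

theorem int_iff (D : Subalgebra k κ) (x : κ) :
    IsIntegral D x ↔ ∀ V : ValuationSubring κ, (∀ d ∈ D, d ∈ V) → x ∈ V := by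
  constructor
  · intro hx V hV
    exact mem_of_integral D.toSubring V (fun d hd => hV d hd) hx
  · intro h
    exact integral_of_mem D.toSubring (fun V hV => h V fun d hd => hV hd)

theorem adjoin_sub (S : Set κ) (V : ValuationSubring κ) (hk : ∀ c : k, algebraMap k κ c ∈ V)
    (hS : ∀ x ∈ S, x ∈ V) {d : κ} (hd : d ∈ Algebra.adjoin k S) : d ∈ V := by
  induction hd using Algebra.adjoin_induction with
  | mem x hx => exact hS x hx
  | algebraMap c => exact hk c
  | add x y _ _ hx hy => exact V.add_mem _ _ hx hy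
  | mul x y _ _ hx hy => exact V.mul_mem _ _ hx hy

/-- powers of the inverse clear denominators -/
theorem clear_denom (S : Set κ) {t : κ} (ht : t ≠ 0) {d : κ}
    (hd : d ∈ Algebra.adjoin k (insert t⁻¹ S)) :
    ∃ L : ℕ, ∀ M, L ≤ M → d * t ^ M ∈ Algebra.adjoin k (insert t S) := by
  have hmem : ∀ n : ℕ, t ^ n ∈ Algebra.adjoin k (insert t S) := fun n =>
    pow_mem (Algebra.subset_adjoin (Set.mem_insert _ _)) n
  have key : ∀ d, (∃ L : ℕ, d * t ^ L ∈ Algebra.adjoin k (insert t S)) →
      ∃ L : ℕ, ∀ M, L ≤ M → d * t ^ M ∈ Algebra.adjoin k (insert t S) := by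
    rintro d ⟨L, hL⟩
    refine ⟨L, fun M hM => ?_⟩
    have : d * t ^ M = d * t ^ L * t ^ (M - L) := by
      rw [mul_assoc, ← pow_add, Nat.add_sub_cancel' hM]
    rw [this]
    exact mul_mem hL (hmem _)
  induction hd using Algebra.adjoin_induction with
  | mem x hx =>
    rcases Set.mem_insert_iff.mp hx with rfl | hx
    · apply key
      refine ⟨1, ?_⟩
      rw [pow_one, inv_mul_cancel₀ ht]
      exact one_mem _
    · apply key
      refine ⟨0, ?_⟩
      rw [pow_zero, mul_one]
      exact Algebra.subset_adjoin (Set.mem_insert_of_mem _ hx)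
  | algebraMap c =>
    apply key
    refine ⟨0, ?_⟩
    rw [pow_zero, mul_one]
    exact Subalgebra.algebraMap_mem _ _
  | add x y _ _ hx hy =>
    obtain ⟨L, hL⟩ := hx
    obtain ⟨M, hM⟩ := hy
    refine ⟨max L M, fun N hN => ?_⟩
    rw [add_mul]
    exact add_mem (hL N (le_trans (le_max_left _ _) hN)) (hM N (le_trans (le_max_right _ _) hN))
  | mul x y _ _ hx hy =>
    obtain ⟨L, hL⟩ := hx
    obtain ⟨M, hM⟩ := hy
    apply key
    refine ⟨L + M, ?_⟩
    have : x * y * t ^ (L + M) = (x * t ^ L) * (y * t ^ M) := by rw [pow_add]; ring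
    rw [this]
    exact mul_mem (hL L le_rfl) (hM M le_rfl)

/-- an element integral over `D'[t⁻¹]` becomes integral over `D'[t]` after multiplication with a
power of `t` -/
theorem int_clear (S : Set κ) {t : κ} (ht : t ≠ 0) {h : κ}
    (hh : IsIntegral (Algebra.adjoin k (insert t⁻¹ S)) h) :
    ∃ L : ℕ, IsIntegral (Algebra.adjoin k (insert t S)) (h * t ^ L) := by
  obtain ⟨p, hp, hp0⟩ := hh
  choose L hL using fun i : ℕ => clear_denom (k := k) S ht (p.coeff i).2
  set M : ℕ := (Finset.range (p.natDegree + 1)).sup L with hM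
  have hcoef : ∀ i, i ≤ p.natDegree → ((p.coeff i : κ)) * t ^ (M * (p.natDegree - i)) ∈
      Algebra.adjoin k (insert t S) := by
    intro i hi
    rcases eq_or_lt_of_le hi with h1 | h1
    · rw [h1, Nat.sub_self, mul_zero, pow_zero, mul_one]
      have h2 : p.coeff p.natDegree = 1 := hp
      rw [h2]
      exact one_mem _
    · apply hL
      have h2 : L i ≤ M := Finset.le_sup (f := L) (Finset.mem_range.mpr (Nat.lt_succ_of_le hi))
      calc L i ≤ M * 1 := by rw [mul_one]; exact h2
        _ ≤ M * (p.natDegree - i) := Nat.mul_le_mul_left _ (by omega)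
  refine ⟨M, ?_⟩
  set n := p.natDegree with hn
  have hsum : ∑ i ∈ Finset.range (n + 1), (p.coeff i : κ) * h ^ i = 0 := by
    rw [eval₂_eq_sum_range] at hp0
    exact hp0
  -- the new polynomial
  let c : ℕ → Algebra.adjoin k (insert t S) := fun i =>
    if hi : i ≤ n then ⟨(p.coeff i : κ) * t ^ (M * (n - i)), hcoef i hi⟩ else 0
  have hc : ∀ i, i ≤ n → (c i : κ) = (p.coeff i : κ) * t ^ (M * (n - i)) := by
    intro i hi
    simp only [c, dif_pos hi]
  have hcn : c n = 1 := by
    apply Subtype.ext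
    rw [hc n le_rfl, Nat.sub_self, mul_zero, pow_zero, mul_one]
    have h2 : p.coeff n = 1 := hp
    rw [h2]
    rfl
  refine ⟨X ^ n + ∑ i ∈ Finset.range n, C (c i) * X ^ i, ?_, ?_⟩
  · apply monic_X_pow_add
    refine mem_degreeLT.mp (Submodule.sum_mem _ fun i hi => mem_degreeLT.mpr ?_)
    exact (degree_C_mul_X_pow_le i _).trans_lt (by exact_mod_cast Finset.mem_range.mp hi)
  · rw [eval₂_add, eval₂_X_pow, eval₂_finsetSum]
    simp only [eval₂_mul, eval₂_C, eval₂_X_pow]
    have h1 : ∀ i ∈ Finset.range n, algebraMap (Algebra.adjoin k (insert t S)) κ (c i) *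
        (h * t ^ M) ^ i = (p.coeff i : κ) * h ^ i * t ^ (M * n) := by
      intro i hi
      have hi' := Finset.mem_range.mp hi
      have : algebraMap (Algebra.adjoin k (insert t S)) κ (c i) = (c i : κ) := rfl
      rw [this, hc i hi'.le, mul_pow, ← pow_mul]
      have h2 : M * n = M * (n - i) + M * i := by rw [← mul_add, Nat.sub_add_cancel hi'.le]
      rw [h2, pow_add]
      ring
    rw [Finset.sum_congr rfl h1, ← Finset.sum_mul, mul_pow, ← pow_mul]
    rw [Finset.sum_range_succ] at hsum
    have h2 : p.coeff n = 1 := hp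
    rw [h2] at hsum
    have h3 : ((1 : Algebra.adjoin k (insert t⁻¹ S)) : κ) = 1 := rfl
    rw [h3, one_mul] at hsum
    rw [← add_mul, add_comm, hsum, zero_mul]

end int

end Pool.Agent.FrD
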