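import Pool.Agent.Lib.MP_305fdd_al.Fr.D.Ufd

/-!
# MP_305fdd_al, F_r: the dichotomy theorem, part 3: minimising the ratio of two values
-/

set_option autoImplicit false
set_option linter.unusedSectionVars false

namespace Pool.Agent.FrD

open Polynomial

universe u v

variable {A : Type u} {κ : Type v} [CommRing A] [IsDomain A] [UniqueFactorizationMonoid A]
  [Field κ] [Algebra A κ]

/-- integral elements lie in valuation rings containing `A` -/
theorem Over.mem_of_int {π : A} {y : ValuationSubring κ} (h : Over π y) {x : κ}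
    (hx : IsIntegral A x) : x ∈ y := by
  have h1 : (algebraMap A κ).range ≤ y.toSubring := by
    rintro _ ⟨a, rfl⟩
    exact h.mem a
  refine mem_of_integral _ y h1 ?_
  obtain ⟨p, hp, hp0⟩ := hx
  refine ⟨p.map (algebraMap A κ).rangeRestrict, hp.map _, ?_⟩
  rw [eval₂_map]
  exact hp0

/-- a monic equation with nonzero constant term -/
theorem exists_monic {τ : κ} (hτ : IsIntegral A τ) (h0 : τ ≠ 0) :
    ∃ P : A[X], P.Monic ∧ aeval τ P = 0 ∧ P.coeff 0 ≠ 0 := by
  have key : ∀ n : ℕ, ∀ P : A[X], P.natDegree = n → P.Monic → aeval τ P = 0 →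
      ∃ P : A[X], P.Monic ∧ aeval τ P = 0 ∧ P.coeff 0 ≠ 0 := by
    intro n
    induction n using Nat.strong_induction_on with
    | _ n ih =>
      intro P hn hP hP0
      by_cases hc : P.coeff 0 = 0
      · have hX : P = P.divX * X := by
          conv_lhs => rw [← divX_mul_X_add P]
          rw [hc, C_0, add_zero]
        have hne : n ≠ 0 := by
          intro h
          rw [h] at hn
          rw [hP.natDegree_eq_zero] at hn
          rw [hn, coeff_one_zero] at hc
          exact one_ne_zero hc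
        have hm : P.divX.Monic := by
          rw [Monic, leadingCoeff, natDegree_divX_eq_natDegree_tsub_one, coeff_divX,
            Nat.sub_add_cancel (by omega)]
          exact hP
        refine ih (P.divX.natDegree) ?_ _ rfl hm ?_
        · rw [natDegree_divX_eq_natDegree_tsub_one]
          omega
        · rw [hX, map_mul, aeval_X] at hP0
          exact (mul_eq_zero.mp hP0).resolve_right h0
      · exact ⟨P, hP, hP0, hc⟩
  obtain ⟨P, hP, hP0⟩ := hτ
  exact key _ P rfl hP hP0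

theorem lt_of_pow {Γ : Type*} [LinearOrderedCommGroupWithZero Γ] {a : Γ} (ha : a < 1) {n : ℕ}
    (hn : n ≠ 0) : a ^ n < 1 := pow_lt_one₀ zero_le ha hn

/-- powers with a common exponent -/
theorem Over.exists_pow_fact {π : A} {y : ValuationSubring κ} (h : Over π y) (hπ : Prime π)
    (hinj : Function.Injective (algebraMap A κ)) {x : κ} (hx : x ≠ 0) {P : A[X]} (hP : P ≠ 0)
    (h0 : aeval x P = 0) (N : ℕ) (hN : P.natDegree.factorial ∣ N) :
    ∃ c : ℤ, y.valuation x ^ N = y.valuation (algebraMap A κ π) ^ c := by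
  obtain ⟨m, hm1, hm2, c, hc⟩ := h.exists_zpow hπ hinj hx hP h0
  obtain ⟨t, rfl⟩ := (Nat.dvd_factorial hm1 hm2).trans hN
  refine ⟨c * t, ?_⟩
  rw [pow_mul, hc, zpow_mul, zpow_natCast]

/-- For integral `h, τ` a fixed power of `h` has values in the group generated by the value of
`τ`. -/
theorem exists_uniform (hinj : Function.Injective (algebraMap A κ)) {τ h : κ}
    (hτ : IsIntegral A τ) (hτ0 : τ ≠ 0) (hh : IsIntegral A h) (hh0 : h ≠ 0) :
    ∃ b : ℕ, 1 ≤ b ∧ ∀ (π : A) (y : ValuationSubring κ), Prime π → Over π y →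
      y.valuation τ < 1 → ∃ r : ℤ, y.valuation h ^ b = y.valuation τ ^ r := by
  obtain ⟨P, hPm, hP0, hPc⟩ := exists_monic hτ hτ0
  obtain ⟨Q, hQm, hQ0⟩ := hh
  set N : ℕ := Q.natDegree.factorial * P.natDegree.factorial with hN
  have hN0 : N ≠ 0 := mul_ne_zero (Nat.factorial_ne_zero _) (Nat.factorial_ne_zero _)
  set T : ℕ := N * Om (P.coeff 0) with hT
  refine ⟨T.factorial, Nat.factorial_pos T, fun π y hπ hy hlt => ?_⟩
  obtain ⟨cτ, hcτ⟩ := hy.exists_pow_fact hπ hinj hτ0 hPm.ne_zero hP0 N (Dvd.intro_left _ rfl)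
  obtain ⟨ch, hch⟩ := hy.exists_pow_fact hπ hinj hh0 hQm.ne_zero hQ0 N (Dvd.intro _ rfl)
  obtain ⟨e, heO, he⟩ := hy.exists_pow hπ hPc
  have hπ0 : 0 < y.valuation (algebraMap A κ π) := by
    rw [zero_lt_iff, Ne, map_eq_zero, map_eq_zero_iff _ hinj]
    exact hπ.ne_zero
  have hπ1 := hy.lt
  have hcpos : 0 < cτ := by
    have h1 := lt_of_pow hlt hN0
    rw [hcτ] at h1
    exact (zpow_lt_one_iff_right_of_lt_one₀ hπ0 hπ1).mp h1
  have hle : y.valuation (algebraMap A κ (P.coeff 0)) ≤ y.valuation τ := by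
    have h1 : algebraMap A κ (P.coeff 0) = -(aeval τ P.divX * τ) := by
      have h2 := hP0
      rw [← divX_mul_X_add P, map_add, map_mul, aeval_X, aeval_C] at h2
      linear_combination h2
    have h3 : aeval τ P.divX ∈ y := by
      refine hy.mem_of_int ?_
      exact IsIntegral.of_mem_of_fg _ hτ.fg_adjoin_singleton _
        (Algebra.adjoin_singleton_eq_range_aeval A τ ▸ ⟨P.divX, rfl⟩)
    rw [h1, Valuation.map_neg, map_mul]
    exact mul_le_of_le_one_left zero_le ((y.valuation_le_one_iff _).mpr h3)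
  have hcle : cτ ≤ T := by
    have h1 : y.valuation (algebraMap A κ π) ^ ((e * N : ℕ) : ℤ) ≤
        y.valuation (algebraMap A κ π) ^ cτ := by
      rw [← hcτ, zpow_natCast, pow_mul, ← he]
      exact pow_le_pow_left₀ zero_le hle N
    have h2 := (zpow_le_zpow_iff_right_of_lt_one₀ hπ0 hπ1).mp h1
    refine h2.trans ?_
    rw [hT]
    have : e * N ≤ N * Om (P.coeff 0) := by
      rw [mul_comm]
      exact Nat.mul_le_mul_left N heO
    exact_mod_cast this
  obtain ⟨t, ht⟩ := Int.eq_ofNat_of_zero_le hcpos.le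
  subst ht
  have ht1 : 1 ≤ t := by omega
  have ht2 : t ≤ T := by omega
  obtain ⟨q, hq⟩ := Nat.dvd_factorial ht1 ht2
  refine ⟨ch * q, ?_⟩
  have hτv : y.valuation τ ≠ 0 := by
    rw [Ne, map_eq_zero]
    exact hτ0
  refine (pow_left_inj₀ zero_le zero_le hN0).mp ?_
  rw [← pow_mul, mul_comm T.factorial N, pow_mul, hch, ← zpow_natCast (y.valuation τ ^ (ch * q)) N,
    ← zpow_mul, mul_comm (ch * (q : ℤ)) (N : ℤ), zpow_mul, zpow_natCast (y.valuation τ) N, hcτ,
    ← zpow_natCast, ← zpow_mul, ← zpow_mul, hq]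
  congr 1
  push_cast
  ring

/-- LEMMA M for integral `h` -/
theorem lemM0 (hinj : Function.Injective (algebraMap A κ)) {τ h : κ}
    (hτ : IsIntegral A τ) (hτ0 : τ ≠ 0) (hτ' : ¬ IsIntegral A τ⁻¹) (hh : IsIntegral A h)
    (hh0 : h ≠ 0) :
    ∃ (π : A) (y : ValuationSubring κ) (b : ℕ) (a : ℤ), Prime π ∧ Over π y ∧ 1 ≤ b ∧
      y.valuation τ < 1 ∧ IsIntegral A (h ^ b * τ ^ (-a)) ∧
      y.valuation (h ^ b * τ ^ (-a)) = 1 := by
  obtain ⟨b, hb1, hb⟩ := exists_uniform hinj hτ hτ0 hh hh0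
  have halg : ∀ a : ℤ, IsAlgebraic A (τ ^ a) := by
    intro a
    cases a with
    | ofNat n =>
      rw [Int.ofNat_eq_natCast, zpow_natCast]
      exact (hτ.isAlgebraic).pow n
    | negSucc n =>
      rw [zpow_negSucc]
      exact ((hτ.isAlgebraic).pow _).inv
  have hval : ∀ y : ValuationSubring κ, 0 < y.valuation τ := by
    intro y
    rw [zero_lt_iff, Ne, map_eq_zero]
    exact hτ0
  -- the set of admissible exponents
  have hne : ∃ a : ℤ, IsIntegral A (h ^ b * τ ^ (-a)) := ⟨0, by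
    rw [neg_zero, zpow_zero, mul_one]
    exact hh.pow b⟩
  have hbdd : ∃ B : ℤ, ∀ a : ℤ, IsIntegral A (h ^ b * τ ^ (-a)) → a ≤ B := by
    obtain ⟨π, y, hπ, hy, hny⟩ := exists_over hinj ((hτ.isAlgebraic).inv) hτ'
    have hlt : y.valuation τ < 1 := by
      by_contra hcon
      apply hny
      rw [← y.valuation_le_one_iff, map_inv₀]
      exact inv_le_one_of_one_le₀ (not_lt.mp hcon)
    obtain ⟨r, hr⟩ := hb π y hπ hy hlt
    refine ⟨r, fun a ha => ?_⟩
    have h1 := (y.valuation_le_one_iff _).mpr (hy.mem_of_int ha)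
    rw [map_mul, map_pow, hr, map_zpow₀, ← zpow_add₀ (hval y).ne', ← zpow_zero (y.valuation τ),
      zpow_le_zpow_iff_right_of_lt_one₀ (hval y) hlt] at h1
    omega
  obtain ⟨a, ha, hmax⟩ := Int.exists_greatest_of_bdd hbdd hne
  have hni : ¬ IsIntegral A (h ^ b * τ ^ (-(a + 1))) := by
    intro hcon
    have := hmax _ hcon
    omega
  obtain ⟨π, y, hπ, hy, hny⟩ := exists_over hinj (((hh.isAlgebraic).pow b).mul (halg _)) hni
  have h1 : y.valuation (h ^ b * τ ^ (-a)) ≤ 1 :=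
    (y.valuation_le_one_iff _).mpr (hy.mem_of_int ha)
  have h2 : 1 < y.valuation (h ^ b * τ ^ (-(a + 1))) := by
    rw [← not_le, y.valuation_le_one_iff]
    exact hny
  have hlt : y.valuation τ < 1 := by
    have h3 : h ^ b * τ ^ (-a) = h ^ b * τ ^ (-(a + 1)) * τ := by
      rw [mul_assoc, ← zpow_add_one₀ hτ0]
      congr 2
      ring
    rw [h3, map_mul] at h1
    by_contra hcon
    push Not at hcon
    have h4 := mul_lt_mul'' h2 (lt_of_lt_of_le zero_lt_one hcon) zero_le zero_le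
    exact absurd h1 (not_le.mpr (lt_of_lt_of_le h2 (le_mul_of_one_le_right zero_le hcon)))
  obtain ⟨r, hr⟩ := hb π y hπ hy hlt
  refine ⟨π, y, b, a, hπ, hy, hb1, hlt, ha, ?_⟩
  rw [map_mul, map_pow, hr, map_zpow₀, ← zpow_add₀ (hval y).ne'] at h1 h2 ⊢
  rw [← zpow_zero (y.valuation τ), zpow_le_zpow_iff_right_of_lt_one₀ (hval y) hlt] at h1
  rw [← zpow_zero (y.valuation τ), zpow_lt_zpow_iff_right_of_lt_one₀ (hval y) hlt] at h2
  have : r + -a = 0 := by omega
  rw [this, zpow_zero]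

/-- LEMMA M -/
theorem lemM (hinj : Function.Injective (algebraMap A κ)) {τ h : κ}
    (hτ : IsIntegral A τ) (hτ0 : τ ≠ 0) (hτ' : ¬ IsIntegral A τ⁻¹) (L : ℕ)
    (hh : IsIntegral A (h * τ ^ L)) (hh0 : h ≠ 0) :
    ∃ (π : A) (y : ValuationSubring κ) (b : ℕ) (a : ℤ), Prime π ∧ Over π y ∧ 1 ≤ b ∧
      y.valuation τ < 1 ∧ IsIntegral A (h ^ b * τ ^ (-a)) ∧
      y.valuation (h ^ b * τ ^ (-a)) = 1 := by
  obtain ⟨π, y, b, a, hπ, hy, hb, hlt, hint, hval⟩ :=
    lemM0 hinj hτ hτ0 hτ' hh (mul_ne_zero hh0 (pow_ne_zero _ hτ0))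
  have h1 : (h * τ ^ L) ^ b * τ ^ (-a) = h ^ b * τ ^ (-(a - L * b)) := by
    rw [mul_pow, mul_assoc, ← pow_mul, ← zpow_natCast τ (L * b), ← zpow_add₀ hτ0]
    congr 2
    push_cast
    ring
  rw [h1] at hint hval
  exact ⟨π, y, b, a - L * b, hπ, hy, hb, hlt, hint, hval⟩

end Pool.Agent.FrD
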