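import Pool.Agent.Lib.MP_305fdd_al.Fr.D.Help

/-!
# MP_305fdd_al, F_r: the dichotomy theorem, part 7: reduction to the residue field
-/

set_option autoImplicit false
set_option linter.unusedSectionVars false

namespace Pool.Agent.FrD

open Polynomial
open scoped Classical

universe u v w

variable {A : Type u} {κ : Type v} [CommRing A] [IsDomain A] [UniqueFactorizationMonoid A]
  [Field κ] [Algebra A κ]

theorem red_eval {π : A} {y : ValuationSubring κ} (hy : Over π y)
    (ρ : A →+* IsLocalRing.ResidueField y) (hρ : ∀ a, ρ a = rs y (algebraMap A κ a)) {x : κ}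
    (hx : x ∈ y) {P : A[X]} (h0 : aeval x P = 0) : eval₂ ρ (rs y x) P = 0 := by
  let α : A →+* y := (algebraMap A κ).codRestrict y.toSubring hy.mem
  have h1 : eval₂ α (⟨x, hx⟩ : y) P = 0 := by
    have h2 := hom_eval₂ P α y.subtype (⟨x, hx⟩ : y)
    have h3 : y.subtype.comp α = algebraMap A κ := by
      ext a
      rfl
    rw [h3] at h2
    have h4 : eval₂ (algebraMap A κ) (y.subtype ⟨x, hx⟩) P = 0 := h0
    rw [h4] at h2
    exact y.subtype_injective (h2.trans (map_zero _).symm)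
  have h2 := hom_eval₂ P α (IsLocalRing.residue y) (⟨x, hx⟩ : y)
  rw [h1, map_zero] at h2
  have h3 : (IsLocalRing.residue y).comp α = ρ := by
    ext a
    rw [hρ, rs_of_mem y (hy.mem a)]
    rfl
  rw [h3] at h2
  rw [rs_of_mem y hx]
  exact h2.symm

theorem red_int {π : A} {y : ValuationSubring κ} (hy : Over π y)
    {D1 : Subring (IsLocalRing.ResidueField y)} (hD1 : ∀ a : A, rs y (algebraMap A κ a) ∈ D1)
    {x : κ} (hx : IsIntegral A x) : IsIntegral D1 (rs y x) := by
  let ρ : A →+* IsLocalRing.ResidueField y :=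
    (IsLocalRing.residue y).comp ((algebraMap A κ).codRestrict y.toSubring hy.mem)
  have hρ : ∀ a, ρ a = rs y (algebraMap A κ a) := by
    intro a
    rw [rs_of_mem y (hy.mem a)]
    rfl
  have hρD : ∀ a, ρ a ∈ D1 := fun a => by rw [hρ]; exact hD1 a
  let ρ1 : A →+* D1 := ρ.codRestrict D1 hρD
  have hxy : x ∈ y := hy.mem_of_int hx
  obtain ⟨P, hP, hP0⟩ := hx
  refine ⟨P.map ρ1, hP.map _, ?_⟩
  rw [eval₂_map]
  have h1 : (algebraMap D1 (IsLocalRing.ResidueField y)).comp ρ1 = ρ := by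
    ext a
    rfl
  rw [h1]
  exact red_eval hy ρ hρ hxy hP0

theorem red_alg (hinj : Function.Injective (algebraMap A κ)) {π : A} (hπ : Prime π)
    {y : ValuationSubring κ} (hy : Over π y)
    {D1 : Subring (IsLocalRing.ResidueField y)} (hD1 : ∀ a : A, rs y (algebraMap A κ a) ∈ D1)
    {x : κ} (hxy : x ∈ y) (hx : IsAlgebraic A x) : IsAlgebraic D1 (rs y x) := by
  let ρ : A →+* IsLocalRing.ResidueField y :=
    (IsLocalRing.residue y).comp ((algebraMap A κ).codRestrict y.toSubring hy.mem)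
  have hρ : ∀ a, ρ a = rs y (algebraMap A κ a) := by
    intro a
    rw [rs_of_mem y (hy.mem a)]
    rfl
  have hρD : ∀ a, ρ a ∈ D1 := fun a => by rw [hρ]; exact hD1 a
  let ρ1 : A →+* D1 := ρ.codRestrict D1 hρD
  obtain ⟨P, hP, hP0, hPd⟩ := exists_gen hinj hx
  have hex : ∃ i, ¬ π ∣ P.coeff i := by
    by_contra hcon
    push Not at hcon
    obtain ⟨R, hR⟩ := (C_dvd_iff_dvd_coeff π P).mpr hcon
    have hR0 : aeval x R = 0 := by
      rw [hR, map_mul, aeval_C] at hP0
      refine (mul_eq_zero.mp hP0).resolve_left ?_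
      rw [map_eq_zero_iff _ hinj]
      exact hπ.ne_zero
    obtain ⟨T, hT⟩ := hPd R hR0
    have h1 : P * (C π * T) = P * 1 := by
      conv_rhs => rw [mul_one, hR, hT]
      ring
    have h2 := mul_left_cancel₀ hP h1
    have h3 : IsUnit (C π : A[X]) := IsUnit.of_mul_eq_one _ h2
    exact hπ.not_isUnit (isUnit_C.mp h3)
  obtain ⟨i, hi⟩ := hex
  refine ⟨P.map ρ1, ?_, ?_⟩
  · intro h
    have h1 : (P.map ρ1).coeff i = 0 := by rw [h, coeff_zero]
    rw [coeff_map] at h1
    have h2 : ρ (P.coeff i) = 0 := congrArg Subtype.val h1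
    rw [hρ] at h2
    exact (rs_ne_zero_iff y).mpr (hy.val_eq hi) h2
  · have h1 : (algebraMap D1 (IsLocalRing.ResidueField y)).comp ρ1 = ρ := by
      ext a
      rfl
    rw [aeval_def, eval₂_map, h1]
    exact red_eval hy ρ hρ hxy hP0

end Pool.Agent.FrD
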