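import Pool.Agent.Lib.MP_305fdd_al.Fr.D.CaseB
import Pool.Agent.Lib.MP_305fdd_al.Fr.D.Red

/-!
# MP_305fdd_al, F_r: the dichotomy theorem, part 8: Lemma P
-/

set_option autoImplicit false
set_option linter.unusedSectionVars false

namespace Pool.Agent.FrD

open Polynomial
open scoped Classical

universe u v w

/-- the conclusion of Lemma P -/
structure PC (k : Type) {ι : Type} {κ : Type} [Field k] [Field κ] [Algebra k κ]
    (s : Finset ι) (e : ι → κ) (h : κ) (V : ValuationSubring κ) (I : Finset ι) : Prop where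
  sub : I ⊆ s
  triv : ∀ c : k, algebraMap k κ c ∈ V
  ne : ∀ i ∈ I, e i ≠ 0
  indep : ∀ a : ι → ℤ, V.valuation (∏ i ∈ I, e i ^ a i) = 1 → ∀ i ∈ I, a i = 0
  dep : ∀ x : κ, x ≠ 0 → ∃ n : ℕ, 1 ≤ n ∧ ∃ a : ι → ℤ,
    V.valuation (x ^ n * ∏ i ∈ I, e i ^ a i) = 1
  rel : ∃ b : ℕ, 1 ≤ b ∧ ∃ l : ι → ℕ, (∀ j ∈ s, e j = 0 → l j = 0) ∧
    V.valuation (h ^ b) = V.valuation (∏ j ∈ s, e j ^ l j)
  td : Algebra.trdeg k κ ≤ (I.card : Cardinal)
  res : ∀ x ∈ V, ∃ P : k[X], P ≠ 0 ∧ V.valuation (aeval x P) < 1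

/-- the conclusion for a smaller set gives the conclusion for a larger set -/
theorem PC.insert {k : Type} {ι : Type} {κ : Type} [Field k] [Field κ] [Algebra k κ]
    {s : Finset ι} {e : ι → κ} {h : κ} {V : ValuationSubring κ} {I : Finset ι}
    (H : PC k s e h V I) {N : ι} (hN : N ∉ s) : PC k (insert N s) e h V I := by
  refine ⟨H.sub.trans (Finset.subset_insert _ _), H.triv, H.ne, H.indep, H.dep, ?_, H.td, H.res⟩
  obtain ⟨b, hb, l, hl, hv⟩ := H.rel
  refine ⟨b, hb, Function.update l N 0, ?_, ?_⟩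
  · intro j hj hej
    rcases Finset.mem_insert.mp hj with rfl | hj
    · exact Function.update_self _ _ _
    · have hne : j ≠ N := fun h => hN (by rw [← h]; exact hj)
      rw [Function.update_of_ne hne]
      exact hl j hj hej
  · rw [hv, Finset.prod_insert hN, Function.update_self, pow_zero, one_mul]
    congr 1
    refine Finset.prod_congr rfl fun j hj => ?_
    have hne : j ≠ N := fun h => hN (by rw [← h]; exact hj)
    rw [Function.update_of_ne hne]

theorem PC.base {k : Type} {ι : Type} {κ : Type} [Field k] [Field κ] [Algebra k κ]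
    (e : ι → κ) {h : κ} (hh : h ≠ 0)
    (halg : ∀ x : κ, IsAlgebraic (Algebra.adjoin k (e '' ((∅ : Finset ι) : Set ι))) x) :
    PC k ∅ e h ⊤ ∅ := by
  have hval : ∀ x : κ, x ≠ 0 → (⊤ : ValuationSubring κ).valuation x = 1 := by
    intro x hx
    rw [val_eq_one_iff]
    exact ⟨ValuationSubring.mem_top _, ValuationSubring.mem_top _, hx⟩
  have halgk : Algebra.IsAlgebraic k κ := by
    refine ⟨fun x => ?_⟩
    have h1 := halg x
    rw [Finset.coe_empty, Set.image_empty] at h1
    have h2 : Algebra.IsAlgebraic k (Algebra.adjoin k (∅ : Set κ)) := by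
      rw [← Subalgebra.isAlgebraic_iff, Algebra.isAlgebraic_adjoin_iff]
      intro x hx
      exact absurd hx (Set.notMem_empty _)
    exact h1.restrictScalars k
  refine ⟨Finset.Subset.refl _, fun c => ValuationSubring.mem_top _, ?_, ?_, ?_, ?_, ?_, ?_⟩
  · intro i hi
    exact absurd hi (Finset.notMem_empty _)
  · intro a _ i hi
    exact absurd hi (Finset.notMem_empty _)
  · intro x hx
    refine ⟨1, le_rfl, 0, ?_⟩
    rw [Finset.prod_empty, mul_one, pow_one]
    exact hval x hx
  · refine ⟨1, le_rfl, 0, fun j hj => absurd hj (Finset.notMem_empty _), ?_⟩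
    rw [Finset.prod_empty, pow_one, hval h hh, map_one]
  · rw [trdeg_eq_zero]
    exact zero_le
  · intro x _
    obtain ⟨P, hP, hP0⟩ := halgk.isAlgebraic x
    refine ⟨P, hP, ?_⟩
    rw [hP0, map_zero]
    exact zero_lt_one

/-- The residue step: `y` is a valuation ring over a prime of a polynomial ring. -/
theorem PC.residue {k ι κ : Type} [Field k] [Field κ] [Algebra k κ] {s : Finset ι} {N : ι}
    (hN : N ∉ s) {e : ι → κ} {h : κ} (heN : e N ≠ 0)
    {A : Type} [CommRing A] [IsDomain A] [UniqueFactorizationMonoid A] [Algebra A κ]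
    (hinj : Function.Injective (algebraMap A κ)) (hkA : ∀ c : k, ∃ a : A, algebraMap A κ a =
      algebraMap k κ c)
    (hA : ∀ x : κ, IsAlgebraic A x) {π : A} (hπ : Prime π) {y : ValuationSubring κ}
    (hy : Over π y) (hey : ∀ j ∈ s, e j ∈ y) (hτ : y.valuation (e N)⁻¹ < 1)
    {b : ℕ} {a : ℕ} (hb : 1 ≤ b) (hq : y.valuation (h ^ b * (e N)⁻¹ ^ a) = 1)
    [Algebra k (IsLocalRing.ResidueField y)]
    (hc : ∀ c : k, algebraMap k (IsLocalRing.ResidueField y) c = rs y (algebraMap k κ c))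
    {W : ValuationSubring (IsLocalRing.ResidueField y)} {I : Finset ι}
    (htd : Algebra.trdeg k (IsLocalRing.ResidueField y) ≤ (I.card : Cardinal) →
      Algebra.trdeg k κ ≤ ((I.card + 1 : ℕ) : Cardinal))
    (H : PC k s (fun j => rs y (e j)) (rs y (h ^ b * (e N)⁻¹ ^ a)) W I) :
    PC k (Insert.insert N s) e h (comp y W) (Insert.insert N I) := by
  have hNI : N ∉ I := fun h => hN (H.sub h)
  have hIs : ∀ i ∈ I, i ∈ s := fun i hi => H.sub hi
  have hval : ∀ i ∈ I, y.valuation (e i) = 1 := fun i hi => (rs_ne_zero_iff y).mp (H.ne i hi)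
  have hk : ∀ c : k, algebraMap k κ c ∈ y := by
    intro c
    obtain ⟨a, ha⟩ := hkA c
    rw [← ha]
    exact hy.mem a
  have hτ0 : (e N)⁻¹ ≠ 0 := inv_ne_zero heN
  -- units
  have hprod : ∀ a : ι → ℤ, y.valuation (∏ i ∈ I, e i ^ a i) = 1 := by
    intro a
    rw [map_prod]
    refine Finset.prod_eq_one fun i hi => ?_
    rw [map_zpow₀, hval i hi, one_zpow]
  have hrsprod : ∀ a : ι → ℤ, rs y (∏ i ∈ I, e i ^ a i) = ∏ i ∈ I, rs y (e i) ^ a i := by
    intro a
    rw [rs_prod]
    · exact Finset.prod_congr rfl fun i hi => rs_zpow y (hval i hi) _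
    · intro i hi
      have : y.valuation (e i ^ a i) = 1 := by rw [map_zpow₀, hval i hi, one_zpow]
      exact ((val_eq_one_iff y _).mp this).1
  have hup : ∀ (a : ι → ℤ) (z : ℤ), ∏ i ∈ I, e i ^ Function.update a N z i =
      ∏ i ∈ I, e i ^ a i := by
    intro a z
    refine Finset.prod_congr rfl fun i hi => ?_
    have hne : i ≠ N := fun h => hNI (by rw [← h]; exact hi)
    rw [Function.update_of_ne hne]
  have hvN : 0 < y.valuation (e N)⁻¹ := by
    rw [zero_lt_iff, Ne, map_eq_zero]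
    exact hτ0
  refine ⟨?_, ?_, ?_, ?_, ?_, ?_, ?_, ?_⟩
  · exact Finset.insert_subset_insert _ H.sub
  · intro c
    refine ⟨hk c, ?_⟩
    rw [← hc]
    exact H.triv c
  · intro i hi
    rcases Finset.mem_insert.mp hi with rfl | hi
    · exact heN
    · have := ((val_eq_one_iff y _).mp (hval i hi)).2.2
      exact this
  · intro a ha
    rw [Finset.prod_insert hNI] at ha
    obtain ⟨h1, h2⟩ := comp_val_one.mp ha
    have haN : a N = 0 := by
      rw [map_mul, hprod, mul_one, map_zpow₀] at h1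
      have h3 : y.valuation (e N)⁻¹ ^ (-(a N)) = 1 := by
        rw [map_inv₀, inv_zpow', neg_neg]
        exact h1
      have h4 := (zpow_eq_one_iff_right₀ hvN.le hτ.ne).mp h3
      omega
    rw [haN, zpow_zero, one_mul, hrsprod] at h2
    intro i hi
    rcases Finset.mem_insert.mp hi with rfl | hi
    · exact haN
    · exact H.indep a h2 i hi
  · intro x hx
    -- a power of `x` times a power of `e N` is a unit of `y`
    obtain ⟨P, hP, hP0⟩ := hA x
    obtain ⟨Q, hQ, hQ0⟩ := hA (e N)⁻¹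
    obtain ⟨m, hm1, _, c, hcx⟩ := hy.exists_zpow hπ hinj hx hP hP0
    obtain ⟨m', hm1', _, c', hcN⟩ := hy.exists_zpow hπ hinj hτ0 hQ hQ0
    have hπ0 : 0 < y.valuation (algebraMap A κ π) := by
      rw [zero_lt_iff, Ne, map_eq_zero, map_eq_zero_iff _ hinj]
      exact hπ.ne_zero
    have hc' : 0 < c' := by
      have h1 : y.valuation (e N)⁻¹ ^ m' < 1 := pow_lt_one₀ zero_le hτ (by omega)
      rw [hcN] at h1
      exact (zpow_lt_one_iff_right_of_lt_one₀ hπ0 hy.lt).mp h1
    obtain ⟨t, ht⟩ := Int.eq_ofNat_of_zero_le hc'.le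
    subst ht
    have hu : y.valuation (x ^ (m * t) * e N ^ ((m' : ℤ) * c)) = 1 := by
      rw [map_mul, map_pow, map_zpow₀, pow_mul, hcx]
      have h1 : y.valuation (e N) = (y.valuation (e N)⁻¹)⁻¹ := by rw [map_inv₀, inv_inv]
      rw [h1, inv_zpow, zpow_mul, zpow_natCast, hcN, ← zpow_natCast, ← zpow_mul, ← zpow_mul,
        mul_comm c, mul_inv_cancel₀ (zpow_ne_zero _ hπ0.ne')]
    obtain ⟨n1, hn1, a1, ha1⟩ := H.dep _ ((rs_ne_zero_iff y).mpr hu)
    refine ⟨m * t * n1, ?_, Function.update a1 N (m' * c * n1), ?_⟩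
    · have ht1 : 1 ≤ t := by omega
      exact Nat.mul_pos (Nat.mul_pos hm1 ht1) hn1
    · rw [Finset.prod_insert hNI, Function.update_self, hup, comp_val_one]
      have h1 : x ^ (m * t * n1) * (e N ^ ((m' : ℤ) * c * n1) * ∏ i ∈ I, e i ^ a1 i) =
          (x ^ (m * t) * e N ^ ((m' : ℤ) * c)) ^ n1 * ∏ i ∈ I, e i ^ a1 i := by
        rw [mul_pow, ← pow_mul, ← zpow_natCast (e N ^ ((m' : ℤ) * c)) n1, ← zpow_mul]
        ring
      rw [h1]
      have h2 : (x ^ (m * t) * e N ^ ((m' : ℤ) * c)) ∈ y := ((val_eq_one_iff y _).mp hu).1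
      refine ⟨?_, ?_⟩
      · rw [map_mul, map_pow, hu, one_pow, hprod, one_mul]
      · rw [rs_mul y (y.pow_mem h2 n1) ((val_eq_one_iff y _).mp (hprod a1)).1, rs_pow y h2, hrsprod]
        exact ha1
  · obtain ⟨b1, hb1, l, hl, hv⟩ := H.rel
    refine ⟨b * b1, Nat.mul_pos hb hb1, Function.update l N (a * b1), ?_, ?_⟩
    · intro j hj hej
      rcases Finset.mem_insert.mp hj with rfl | hj
      · exact absurd hej heN
      · have hne : j ≠ N := fun h => hN (by rw [← h]; exact hj)
        rw [Function.update_of_ne hne]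
        refine hl j hj ?_
        show rs y (e j) = 0
        rw [hej, rs_eq_zero_iff y y.zero_mem, map_zero]
        exact zero_lt_one
    · rw [Finset.prod_insert hN, Function.update_self]
      have h0 : ∏ i ∈ s, e i ^ Function.update l N (a * b1) i = ∏ i ∈ s, e i ^ l i := by
        refine Finset.prod_congr rfl fun i hi => ?_
        have hne : i ≠ N := fun h => hN (by rw [← h]; exact hi)
        rw [Function.update_of_ne hne]
      rw [h0]
      have hqy : h ^ b * (e N)⁻¹ ^ a ∈ y := ((val_eq_one_iff y _).mp hq).1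
      -- the product of the residues
      have hl' : ∀ j ∈ s, l j ≠ 0 → y.valuation (e j) = 1 := by
        intro j hj hlj
        refine (rs_ne_zero_iff y).mp fun h0 => hlj (hl j hj h0)
      have hpv : y.valuation (∏ j ∈ s, e j ^ l j) = 1 := by
        rw [map_prod]
        refine Finset.prod_eq_one fun j hj => ?_
        by_cases h1 : l j = 0
        · rw [h1, pow_zero, map_one]
        · rw [map_pow, hl' j hj h1, one_pow]
      have hpr : rs y (∏ j ∈ s, e j ^ l j) = ∏ j ∈ s, rs y (e j) ^ l j := by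
        rw [rs_prod y _ _ fun j hj => y.pow_mem (hey j hj) _]
        exact Finset.prod_congr rfl fun j hj => rs_pow y (hey j hj) _
      have hp0 : ∏ j ∈ s, e j ^ l j ≠ 0 := ((val_eq_one_iff y _).mp hpv).2.2
      have hu : (comp y W).valuation
          ((h ^ b * (e N)⁻¹ ^ a) ^ b1 * (∏ j ∈ s, e j ^ l j)⁻¹) = 1 := by
        rw [comp_val_one]
        refine ⟨?_, ?_⟩
        · rw [map_mul, map_pow, hq, one_pow, map_inv₀, hpv, inv_one, one_mul]
        · have h1 : (∏ j ∈ s, e j ^ l j)⁻¹ ∈ y := ((val_eq_one_iff y _).mp hpv).2.1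
          rw [rs_mul y (y.pow_mem hqy b1) h1, rs_inv y hpv, hpr, rs_pow y hqy, map_mul, hv,
            map_inv₀]
          refine mul_inv_cancel₀ ?_
          rw [Ne, map_eq_zero, ← hpr]
          exact (rs_ne_zero_iff y).mpr hpv
      have hw0 : (comp y W).valuation (∏ j ∈ s, e j ^ l j) ≠ 0 := by
        rw [Ne, map_eq_zero]
        exact hp0
      have hN0 : (comp y W).valuation (e N) ≠ 0 := by
        rw [Ne, map_eq_zero]
        exact heN
      rw [map_mul, map_inv₀, map_pow, map_mul, map_pow, map_pow, map_inv₀] at hu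
      rw [map_mul, map_pow, map_pow]
      have h2 := eq_of_mul_inv_eq_one hu
      rw [← h2, mul_pow, ← pow_mul, ← pow_mul, mul_left_comm, ← mul_pow, mul_inv_cancel₀ hN0,
        one_pow, mul_one]
  · rw [Finset.card_insert_of_notMem hNI]
    exact htd H.td
  · intro x hx
    obtain ⟨hx1, hx2⟩ := mem_comp.mp hx
    obtain ⟨P, hP, hP1⟩ := H.res _ hx2
    refine ⟨P, hP, ?_⟩
    have hpm : ∀ Q : k[X], aeval x Q ∈ y ∧ rs y (aeval x Q) = aeval (rs y x) Q := by
      intro Q
      induction Q using Polynomial.induction_on' with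
      | add p q hp hq =>
        refine ⟨by rw [map_add]; exact y.add_mem _ _ hp.1 hq.1, ?_⟩
        rw [map_add, map_add, rs_add y hp.1 hq.1, hp.2, hq.2]
      | monomial n c =>
        rw [aeval_monomial, aeval_monomial]
        refine ⟨y.mul_mem _ _ (hk c) (y.pow_mem hx1 n), ?_⟩
        rw [rs_mul y (hk c) (y.pow_mem hx1 n), hc, rs_pow y hx1]
    refine comp_nonunit (hpm P).1 ?_
    rw [(hpm P).2]
    exact hP1

end Pool.Agent.FrD
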