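import Pool.Agent.Lib.MP_305fdd_al.Fr.D.LemM

/-!
# MP_305fdd_al, F_r: the dichotomy theorem, transcendence degrees
-/

set_option autoImplicit false
set_option linter.unusedSectionVars false

namespace Pool.Agent.FrD

open MvPolynomial

/-- some variable occurs in all nonzero multiples of a prime polynomial -/
theorem exists_var {k : Type*} [Field k] {d : ℕ} {π : MvPolynomial (Fin d) k} (hπ : Prime π) :
    ∃ i : Fin d, ∀ Q : MvPolynomial (Fin d) k, i ∉ Q.vars → π ∣ Q → Q = 0 := by
  classical
  have h1 : ∃ i : Fin d, i ∈ π.vars := by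
    by_contra hcon
    push Not at hcon
    have h2 : π.vars = ∅ := Finset.eq_empty_of_forall_notMem hcon
    rw [vars_eq_empty_iff_eq_C] at h2
    have h3 : π.coeff 0 ≠ 0 := by
      intro h
      rw [h, C_0] at h2
      exact hπ.ne_zero h2
    apply hπ.not_isUnit
    rw [h2]
    exact (IsUnit.mk0 _ h3).map C
  obtain ⟨i, hi⟩ := h1
  refine ⟨i, ?_⟩
  rintro Q hQ ⟨R, rfl⟩
  by_contra hne
  have hR : R ≠ 0 := right_ne_zero_of_mul hne
  apply hQ
  rw [mem_vars_iff_degreeOf_ne_zero] at hi ⊢
  rw [degreeOf_mul_eq hπ.ne_zero hR]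
  omega

/-- the transcendence degree drops by at least one at the residue field -/
theorem trdeg_le {k κ κ1 : Type} [Field k] [Field κ] [Field κ1] [Algebra k κ] [Algebra k κ1]
    {d : ℕ} (g : MvPolynomial (Fin d) k →ₐ[k] κ) (_hg : Function.Injective g)
    (halg : ∀ x : κ, IsAlgebraic g.range x) (π : MvPolynomial (Fin d) k) (hπ : Prime π)
    (r : MvPolynomial (Fin d) k →ₐ[k] κ1) (hr : ∀ Q, r Q = 0 ↔ π ∣ Q) (n : ℕ)
    (h1 : Algebra.trdeg k κ1 ≤ (n : Cardinal)) :
    Algebra.trdeg k κ ≤ ((n + 1 : ℕ) : Cardinal) := by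
  classical
  obtain ⟨i, hi⟩ := exists_var hπ
  -- `κ` is algebraic over the image of the variables
  have hrange : Algebra.adjoin k (Set.range (fun j => g (X j))) = g.range := by
    have h2 : g = aeval (fun j => g (X j)) := (aeval_unique g)
    rw [Algebra.adjoin_range_eq_range_aeval, ← h2]
  have h3 : Algebra.IsAlgebraic (Algebra.adjoin k (Set.range (fun j => g (X j)))) κ := by
    rw [hrange]
    exact ⟨halg⟩
  have h4 := Algebra.IsAlgebraic.trdeg_le_cardinalMk k (Set.range (fun j => g (X j))) (A := κ)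
  have h5 : Cardinal.mk (Set.range (fun j => g (X j))) ≤ (d : Cardinal) := by
    refine Cardinal.mk_range_le.trans ?_
    simp
  -- the images of the other variables are independent
  have hind : AlgebraicIndependent k (fun j : {j : Fin d // j ≠ i} => r (X j.1)) := by
    rw [algebraicIndependent_iff]
    intro p hp
    have h6 : r (rename (fun j : {j : Fin d // j ≠ i} => j.1) p) = 0 := by
      have h7 : r = aeval (fun j => r (X j)) := aeval_unique r
      rw [h7, aeval_rename]
      exact hp
    rw [hr] at h6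
    have h8 := hi _ (fun hmem => by
      have h9 := vars_rename (fun j : {j : Fin d // j ≠ i} => j.1) p hmem
      obtain ⟨j, _, hj⟩ := Finset.mem_image.mp h9
      exact j.2 hj) h6
    exact (rename_injective _ Subtype.val_injective) (by rw [h8, map_zero])
  have h10 := hind.cardinalMk_le_trdeg
  have h11 : Cardinal.mk {j : Fin d // j ≠ i} = ((d - 1 : ℕ) : Cardinal) := by
    rw [Cardinal.mk_fintype, Fintype.card_subtype_compl, Fintype.card_fin,
      Fintype.card_subtype_eq]
  rw [h11] at h10
  have h12 := h10.trans h1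
  have h13 : d - 1 ≤ n := by exact_mod_cast h12
  refine (h4.trans h5).trans ?_
  have : d ≤ n + 1 := by omega
  exact_mod_cast this

theorem indep_alg {k κ : Type} [Field k] [Field κ] [Algebra k κ] (V : ValuationSubring κ)
    (hk : ∀ c : k, algebraMap k κ c ∈ V) {ι : Type} [Fintype ι] (e : ι → κ)
    (he : ∀ i, e i ≠ 0)
    (hind : ∀ a : ι → ℤ, V.valuation (∏ i, e i ^ a i) = 1 → a = 0) :
    AlgebraicIndependent k e := by
  classical
  have hc : ∀ c : k, c ≠ 0 → V.valuation (algebraMap k κ c) = 1 := by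
    intro c hc
    refine le_antisymm ((V.valuation_le_one_iff _).mpr (hk c)) ?_
    have h1 := (V.valuation_le_one_iff _).mpr (hk c⁻¹)
    rw [map_inv₀, map_inv₀] at h1
    have h2 : V.valuation (algebraMap k κ c) ≠ 0 := by
      rw [Ne, map_eq_zero, map_eq_zero]
      exact hc
    exact (inv_le_one₀ (zero_lt_iff.mpr h2)).mp h1
  rw [algebraicIndependent_iff]
  intro p hp
  by_contra hne
  obtain ⟨m0, hm0⟩ : ∃ m, m ∈ p.support := by
    by_contra hcon
    push Not at hcon
    apply hne
    ext m
    have := hcon m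
    rw [mem_support_iff, not_not] at this
    rw [this, coeff_zero]
  have hsum : ∑ m ∈ p.support, algebraMap k κ (coeff m p) * ∏ i, e i ^ m i = 0 := by
    rw [← hp, aeval_def, eval₂_eq']
  have hne0 : ∀ m ∈ p.support, algebraMap k κ (coeff m p) * ∏ i, e i ^ m i ≠ 0 := by
    intro m hm
    rw [mem_support_iff] at hm
    refine mul_ne_zero ?_ (Finset.prod_ne_zero_iff.mpr fun i _ => pow_ne_zero _ (he i))
    rw [Ne, map_eq_zero]
    exact hm
  obtain ⟨m, hm, m', hm', hmm, _, _, hv⟩ := two_terms V.valuation p.support _ hsum hm0 (hne0 m0 hm0)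
  rw [map_mul, map_mul, hc _ (mem_support_iff.mp hm), hc _ (mem_support_iff.mp hm'), one_mul,
    one_mul] at hv
  have h3 := hind (fun i => (m i : ℤ) - (m' i : ℤ)) (by
    have h4 : (∏ i, e i ^ ((m i : ℤ) - (m' i : ℤ))) = (∏ i, e i ^ m i) / ∏ i, e i ^ m' i := by
      rw [← Finset.prod_div_distrib]
      refine Finset.prod_congr rfl fun i _ => ?_
      rw [zpow_sub₀ (he i), zpow_natCast, zpow_natCast]
    rw [h4, map_div₀, hv, div_self]
    rw [Ne, map_eq_zero]
    exact Finset.prod_ne_zero_iff.mpr fun i _ => pow_ne_zero _ (he i))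
  apply hmm
  ext i
  have h5 := congrFun h3 i
  simp only [Pi.zero_apply] at h5
  omega

theorem indep_basis {k κ : Type} [Field k] [Field κ] [Algebra k κ] (V : ValuationSubring κ)
    (hk : ∀ c : k, algebraMap k κ c ∈ V) {ι : Type} [Fintype ι] (e : ι → κ)
    (he : ∀ i, e i ≠ 0)
    (hind : ∀ a : ι → ℤ, V.valuation (∏ i, e i ^ a i) = 1 → a = 0)
    (htr : Algebra.trdeg k κ ≤ (Fintype.card ι : Cardinal)) :
    IsTranscendenceBasis k e := by
  refine (indep_alg V hk e he hind).isTranscendenceBasis_of_trdeg_le_of_finite ?_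
  rw [Cardinal.mk_fintype]
  exact htr

end Pool.Agent.FrD
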