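import Pool.Agent.Lib.MP_305fdd_al.Fr.D.LemP
import Pool.Agent.Lib.MP_305fdd_al.Fr.D.Trd

/-!
# MP_305fdd_al, F_r: the dichotomy theorem, part 9: Lemma P, the induction
-/

set_option autoImplicit false
set_option linter.unusedSectionVars false

namespace Pool.Agent.FrD

open Polynomial
open scoped Classical

/-- the statement of Lemma P for the index set `s` -/
def SP (k : Type) [Field k] {ι : Type} (s : Finset ι) : Prop :=
  ∀ (κ : Type) [Field κ] [Algebra k κ] (e : ι → κ) (h : κ), h ≠ 0 →
    (∀ x : κ, IsAlgebraic (Algebra.adjoin k (e '' (s : Set ι))) x) →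
    IsIntegral (Algebra.adjoin k (e '' (s : Set ι))) h →
    ∃ (V : ValuationSubring κ) (I : Finset ι), PC k s e h V I

section step

variable {k κ : Type} [Field k] [Field κ] [Algebra k κ]

theorem step_case (S : Set κ) {s h : κ} (hh : h ≠ 0)
    (halg : ∀ x : κ, IsAlgebraic (Algebra.adjoin k (insert s S)) x)
    (hint : IsIntegral (Algebra.adjoin k (insert s S)) h)
    (hfin : S.Finite) (hni : ¬ IsIntegral (Algebra.adjoin k S) s) :
    (IsIntegral (Algebra.adjoin k S) h ∧ ∀ x : κ, IsAlgebraic (Algebra.adjoin k S) x) ∨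
    ∃ (d : ℕ) (g : MvPolynomial (Fin d) k →ₐ[k] κ) (_ : Algebra (MvPolynomial (Fin d) k) κ)
      (π : MvPolynomial (Fin d) k) (y : ValuationSubring κ) (b a : ℕ),
      (∀ Q, algebraMap (MvPolynomial (Fin d) k) κ Q = g Q) ∧ Function.Injective g ∧
      (∀ Q, g Q ∈ Algebra.adjoin k (insert s⁻¹ S)) ∧
      (∀ x : κ, IsAlgebraic (MvPolynomial (Fin d) k) x) ∧ Prime π ∧ Over π y ∧
      (∀ x ∈ Algebra.adjoin k (insert s⁻¹ S), x ∈ y) ∧ 1 ≤ b ∧ y.valuation s⁻¹ < 1 ∧
      IsIntegral (MvPolynomial (Fin d) k) (h ^ b * s⁻¹ ^ a) ∧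
      y.valuation (h ^ b * s⁻¹ ^ a) = 1 := by
  have hs : s ≠ 0 := by
    rintro rfl
    exact hni isIntegral_zero
  set E : Subalgebra k κ := Algebra.adjoin k (insert s⁻¹ S) with hE
  have hEfg : E.FG := ⟨(hfin.insert s⁻¹).toFinset, by rw [Set.Finite.coe_toFinset]⟩
  have hft : Algebra.FiniteType k E := E.fg_iff_finiteType.mp hEfg
  obtain ⟨d, g, hg, hgi⟩ := exists_integral_inj_algHom_of_fg k E
  let g' : MvPolynomial (Fin d) k →ₐ[k] κ := E.val.comp g
  let algκ : Algebra (MvPolynomial (Fin d) k) κ := g'.toRingHom.toAlgebra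
  let algE : Algebra (MvPolynomial (Fin d) k) E := g.toRingHom.toAlgebra
  have tow : IsScalarTower (MvPolynomial (Fin d) k) E κ := IsScalarTower.of_algebraMap_eq fun _ => rfl
  have hEint : Algebra.IsIntegral (MvPolynomial (Fin d) k) E := ⟨fun x => hgi x⟩
  have hinj : Function.Injective (algebraMap (MvPolynomial (Fin d) k) κ) := by
    intro P Q h
    exact hg (Subtype.ext h)
  have hEi : ∀ x ∈ E, IsIntegral (MvPolynomial (Fin d) k) x := by
    intro x hx
    exact (hEint.isIntegral (⟨x, hx⟩ : E)).map (IsScalarTower.toAlgHom (MvPolynomial (Fin d) k) E κ)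
  have htrans : ∀ x : κ, IsIntegral E x → IsIntegral (MvPolynomial (Fin d) k) x := by
    intro x hx
    exact isIntegral_trans x hx
  have hback : ∀ x : κ, IsIntegral (MvPolynomial (Fin d) k) x → IsIntegral E x := by
    intro x hx
    exact hx.tower_top
  -- everything is algebraic over the polynomial ring
  have halgE : ∀ x : κ, IsAlgebraic E x := by
    intro x
    refine IsAlgebraic.adjoin_of_forall_isAlgebraic (s := insert s S) (t := insert s⁻¹ S) ?_ (halg x)
    intro z hz
    have hz1 : z = s := by
      rcases Set.mem_insert_iff.mp hz.1 with h1 | h1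
      · exact h1
      · exact absurd (Set.mem_insert_of_mem _ h1) hz.2
    rw [hz1]
    have h1 : IsAlgebraic E s⁻¹ :=
      isAlgebraic_algebraMap (⟨s⁻¹, Algebra.subset_adjoin (Set.mem_insert _ _)⟩ : E)
    have h2 := h1.inv
    rw [inv_inv] at h2
    exact h2
  have halgA : ∀ x : κ, IsAlgebraic (MvPolynomial (Fin d) k) x := fun x =>
    (halgE x).restrictScalars _
  have hτE : s⁻¹ ∈ E := Algebra.subset_adjoin (Set.mem_insert _ _)
  have hτ' : ¬ IsIntegral (MvPolynomial (Fin d) k) (s⁻¹)⁻¹ := by
    rw [inv_inv]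
    intro h1
    have h2 := hback s h1
    apply hni
    rw [int_iff] at h2 ⊢
    intro V hV
    rcases V.mem_or_inv_mem s with h3 | h3
    · exact h3
    · refine h2 V fun x hx => adjoin_sub _ V (fun c => hV _ (Subalgebra.algebraMap_mem _ c)) ?_ hx
      intro z hz
      rcases Set.mem_insert_iff.mp hz with rfl | hz
      · exact h3
      · exact hV _ (Algebra.subset_adjoin hz)
  obtain ⟨L, hL⟩ := int_clear (k := k) S (inv_ne_zero hs) (h := h) (by rw [inv_inv]; exact hint)
  obtain ⟨π, y, b, a, hπ, hy, hb, hlt, hq, hqv⟩ := lemM hinj (hEi _ hτE) (inv_ne_zero hs) hτ' L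
    (htrans _ hL) hh
  by_cases ha : 0 < a
  · left
    obtain ⟨n, rfl⟩ := Int.eq_ofNat_of_zero_le ha.le
    have hn : 1 ≤ n := by omega
    have h1 : h ^ b * s⁻¹ ^ (-(n : ℤ)) = h ^ b * s ^ n := by
      rw [inv_zpow', neg_neg, zpow_natCast]
    rw [h1] at hq
    have hqE := hback _ hq
    have h2 := caseB1_int (k := k) S hb hs hint hqE
    have h3 := caseB1_alg (k := k) S hn hs hh hint hqE
    refine ⟨h2, fun x => ?_⟩
    refine IsAlgebraic.adjoin_of_forall_isAlgebraic (s := insert s S) (t := S) ?_ (halg x)
    intro z hz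
    have hz1 : z = s := by
      rcases Set.mem_insert_iff.mp hz.1 with h4 | h4
      · exact h4
      · exact absurd h4 hz.2
    rw [hz1]
    exact h3
  · right
    obtain ⟨n, hn⟩ := Int.eq_ofNat_of_zero_le (a := -a) (by omega)
    rw [hn, zpow_natCast] at hq hqv
    exact ⟨d, g', algκ, π, y, b, n, fun _ => rfl, hinj, fun Q => (g Q).2, halgA, hπ, hy,
      fun x hx => hy.mem_of_int (hEi x hx), hb, hlt, hq, hqv⟩

end step

theorem lemP (k : Type) [Field k] {ι : Type} (s : Finset ι) : SP k s := by
  induction s using Finset.induction_on with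
  | empty =>
    intro κ _ _ e h hh halg hint
    exact ⟨⊤, ∅, PC.base e hh halg⟩
  | insert N s hN ih =>
    intro κ _ _ e h hh halg hint
    set S : Set κ := e '' (s : Set ι) with hS
    have hcoe : e '' ((Insert.insert N s : Finset ι) : Set ι) = insert (e N) S := by
      rw [Finset.coe_insert, Set.image_insert_eq]
    rw [hcoe] at halg hint
    by_cases hA : IsIntegral (Algebra.adjoin k S) (e N)
    · have h1 : ∀ x : κ, IsAlgebraic (Algebra.adjoin k S) x := by
        intro x
        refine IsAlgebraic.adjoin_of_forall_isAlgebraic (s := insert (e N) S) (t := S) ?_ (halg x)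
        intro z hz
        have hz1 : z = e N := by
          rcases Set.mem_insert_iff.mp hz.1 with h4 | h4
          · exact h4
          · exact absurd h4 hz.2
        rw [hz1]
        exact hA.isAlgebraic
      have h2 : IsIntegral (Algebra.adjoin k S) h := by
        rw [int_iff] at hint hA ⊢
        intro V hV
        refine hint V fun x hx => adjoin_sub _ V (fun c => hV _ (Subalgebra.algebraMap_mem _ c)) ?_ hx
        intro z hz
        rcases Set.mem_insert_iff.mp hz with rfl | hz
        · exact hA V hV
        · exact hV _ (Algebra.subset_adjoin hz)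
      obtain ⟨V, I, H⟩ := ih κ e h hh h1 h2
      exact ⟨V, I, H.insert hN⟩
    rcases step_case S hh halg hint (s.finite_toSet.image e) hA with ⟨h2, h1⟩ |
      ⟨d, g, algκ, π, y, b, a, hgm, hg, hgE, halgA, hπ, hy, hEy, hb, hτ, hq, hqv⟩
    · obtain ⟨V, I, H⟩ := ih κ e h hh h1 h2
      exact ⟨V, I, H.insert hN⟩
    have heN : e N ≠ 0 := by
      intro h0
      rw [h0] at hA
      exact hA isIntegral_zero
    have hinj : Function.Injective (algebraMap (MvPolynomial (Fin d) k) κ) := by
      intro P Q hPQ
      rw [hgm, hgm] at hPQ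
      exact hg hPQ
    have hky : ∀ c : k, algebraMap k κ c ∈ y := fun c => hEy _ (Subalgebra.algebraMap_mem _ c)
    let ik : k →+* y := (algebraMap k κ).codRestrict y.toSubring hky
    let algR : Algebra k (IsLocalRing.ResidueField y) :=
      ((IsLocalRing.residue y).comp ik).toAlgebra
    have hc : ∀ c : k, algebraMap k (IsLocalRing.ResidueField y) c = rs y (algebraMap k κ c) := by
      intro c
      rw [rs_of_mem y (hky c)]
      rfl
    let e1 : ι → IsLocalRing.ResidueField y := fun j => rs y (e j)
    have hey : ∀ j ∈ s, e j ∈ y := fun j hj =>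
      hEy _ (Algebra.subset_adjoin (Set.mem_insert_of_mem _ ⟨j, hj, rfl⟩))
    set D1 : Subalgebra k (IsLocalRing.ResidueField y) := Algebra.adjoin k (e1 '' (s : Set ι)) with hD1
    have hrE : ∀ x ∈ Algebra.adjoin k (insert (e N)⁻¹ S), rs y x ∈ D1 := by
      intro x hx
      induction hx using Algebra.adjoin_induction with
      | mem x hx =>
        rcases Set.mem_insert_iff.mp hx with rfl | ⟨j, hj, rfl⟩
        · have h0 : rs y (e N)⁻¹ = 0 := by
            rw [rs_eq_zero_iff y ((y.valuation_le_one_iff _).mp hτ.le)]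
            exact hτ
          rw [h0]
          exact zero_mem _
        · exact Algebra.subset_adjoin ⟨j, hj, rfl⟩
      | algebraMap c =>
        rw [← hc]
        exact Subalgebra.algebraMap_mem _ c
      | add x z hx hz hx' hz' =>
        rw [rs_add y (hEy _ hx) (hEy _ hz)]
        exact add_mem hx' hz'
      | mul x z hx hz hx' hz' =>
        rw [rs_mul y (hEy _ hx) (hEy _ hz)]
        exact mul_mem hx' hz'
    have hAD : ∀ Q : MvPolynomial (Fin d) k,
        rs y (algebraMap (MvPolynomial (Fin d) k) κ Q) ∈ D1.toSubring := by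
      intro Q
      rw [hgm]
      exact hrE _ (hgE Q)
    have h1 : ∀ x : IsLocalRing.ResidueField y, IsAlgebraic D1 x := by
      intro x
      obtain ⟨z, rfl⟩ := IsLocalRing.residue_surjective x
      have h3 := red_alg hinj hπ hy hAD z.2 (halgA (z : κ))
      rw [rs_of_mem y z.2] at h3
      exact h3
    have h2 : IsIntegral D1 (rs y (h ^ b * (e N)⁻¹ ^ a)) := red_int hy hAD hq
    obtain ⟨W, I, H⟩ := ih (IsLocalRing.ResidueField y) e1 _ ((rs_ne_zero_iff y).mpr hqv) h1 h2
    refine ⟨comp y W, Insert.insert N I, PC.residue (A := MvPolynomial (Fin d) k) hN heN hinj ?_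
      halgA hπ hy hey hτ hb hqv hc ?_ H⟩
    · intro c
      refine ⟨MvPolynomial.C c, ?_⟩
      rw [hgm]
      exact g.commutes c
    · intro htd
      -- the residue map on the polynomial ring
      let r : MvPolynomial (Fin d) k →ₐ[k] IsLocalRing.ResidueField y :=
        { toRingHom := (IsLocalRing.residue y).comp
            ((algebraMap (MvPolynomial (Fin d) k) κ).codRestrict y.toSubring hy.mem)
          commutes' := by
            intro c
            have h5 : algebraMap (MvPolynomial (Fin d) k) κ
                (algebraMap k (MvPolynomial (Fin d) k) c) = algebraMap k κ c := by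
              rw [hgm]
              exact g.commutes c
            rw [hc, rs_of_mem y (hky c)]
            show IsLocalRing.residue y ⟨algebraMap (MvPolynomial (Fin d) k) κ
              (algebraMap k (MvPolynomial (Fin d) k) c), _⟩ = _
            congr 1
            exact Subtype.ext h5 }
      have hr : ∀ Q, r Q = 0 ↔ π ∣ Q := by
        intro Q
        have h5 : r Q = rs y (algebraMap (MvPolynomial (Fin d) k) κ Q) := by
          rw [rs_of_mem y (hy.mem Q)]
          rfl
        rw [h5, rs_eq_zero_iff y (hy.mem Q), hy.val_lt_iff]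
      refine trdeg_le g hg (fun x => ?_) π hπ r hr I.card htd
      obtain ⟨P, hP, hP0⟩ := halgA x
      refine ⟨P.map g.rangeRestrict.toRingHom, ?_, ?_⟩
      · intro h0
        apply hP
        apply Polynomial.map_injective g.rangeRestrict.toRingHom ?_
        · rw [h0, Polynomial.map_zero]
        · intro p q hpq
          exact hg (congrArg Subtype.val hpq)
      · rw [aeval_def, eval₂_map]
        have h5 : (algebraMap g.range κ).comp g.rangeRestrict.toRingHom =
            algebraMap (MvPolynomial (Fin d) k) κ := by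
          refine RingHom.ext fun Q => ?_
          rw [hgm]
          rfl
        rw [h5]
        exact hP0

end Pool.Agent.FrD
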