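import Pool.Agent.Lib.MP_305fdd_al.Fr.D.Val

/-!
# MP_305fdd_al, F_r: the dichotomy theorem, part 2: valuation rings over primes of a UFD

`A` is a UFD with an injective map to a field `κ`.
-/

set_option autoImplicit false
set_option linter.unusedSectionVars false

namespace Pool.Agent.FrD

open Polynomial

universe u v

variable {A : Type u} {κ : Type v} [CommRing A] [IsDomain A] [UniqueFactorizationMonoid A]
  [Field κ] [Algebra A κ]

/-- the valuation ring `y` contains `A` and its maximal ideal meets `A` in `(π)` -/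
structure Over (π : A) (y : ValuationSubring κ) : Prop where
  mem : ∀ a : A, algebraMap A κ a ∈ y
  iff : ∀ a : A, algebraMap A κ a ∈ y.nonunits ↔ π ∣ a

/-- number of prime factors -/
noncomputable def Om (a : A) : ℕ := (UniqueFactorizationMonoid.factors a).card

theorem le_Om {a π : A} (ha : a ≠ 0) (hπ : Prime π) {e : ℕ} (h : π ^ e ∣ a) : e ≤ Om a := by
  obtain ⟨b, rfl⟩ := h
  have hb : b ≠ 0 := right_ne_zero_of_mul ha
  have hp : π ^ e ≠ 0 := left_ne_zero_of_mul ha
  have h1 := Multiset.card_eq_card_of_rel (UniqueFactorizationMonoid.factors_mul hp hb)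
  have h2 := Multiset.card_eq_card_of_rel (UniqueFactorizationMonoid.factors_pow (x := π) e)
  have h3 := UniqueFactorizationMonoid.card_factors_of_irreducible hπ.irreducible
  unfold Om
  rw [h1, Multiset.card_add, h2, Multiset.card_nsmul, h3, mul_one]
  exact Nat.le_add_right _ _

theorem Over.val_le {π : A} {y : ValuationSubring κ} (h : Over π y) (a : A) :
    y.valuation (algebraMap A κ a) ≤ 1 := (y.valuation_le_one_iff _).mpr (h.mem a)

theorem Over.val_lt_iff {π : A} {y : ValuationSubring κ} (h : Over π y) (a : A) :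
    y.valuation (algebraMap A κ a) < 1 ↔ π ∣ a := by
  rw [← h.iff a, ValuationSubring.mem_nonunits_iff]

theorem Over.val_eq {π : A} {y : ValuationSubring κ} (h : Over π y) {a : A} (ha : ¬ π ∣ a) :
    y.valuation (algebraMap A κ a) = 1 := by
  rcases lt_or_eq_of_le (h.val_le a) with h1 | h1
  · exact absurd ((h.val_lt_iff a).mp h1) ha
  · exact h1

theorem Over.lt {π : A} {y : ValuationSubring κ} (h : Over π y) :
    y.valuation (algebraMap A κ π) < 1 := (h.val_lt_iff π).mpr dvd_rfl

/-- values of the elements of `A` -/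
theorem Over.exists_pow {π : A} {y : ValuationSubring κ} (h : Over π y) (hπ : Prime π)
    {a : A} (ha : a ≠ 0) :
    ∃ e : ℕ, e ≤ Om a ∧
      y.valuation (algebraMap A κ a) = y.valuation (algebraMap A κ π) ^ e := by
  obtain ⟨e, a', h1, h2⟩ := WfDvdMonoid.max_power_factor ha hπ.irreducible
  refine ⟨e, le_Om ha hπ ⟨a', h2⟩, ?_⟩
  rw [h2, map_mul, map_pow, map_mul, map_pow, h.val_eq h1, mul_one]

/-- the values of elements algebraic over `A` -/
theorem Over.exists_zpow {π : A} {y : ValuationSubring κ} (h : Over π y) (hπ : Prime π)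
    (hinj : Function.Injective (algebraMap A κ)) {x : κ} (hx : x ≠ 0) {P : A[X]} (hP : P ≠ 0)
    (h0 : aeval x P = 0) :
    ∃ m : ℕ, 1 ≤ m ∧ m ≤ P.natDegree ∧ ∃ c : ℤ,
      y.valuation x ^ m = y.valuation (algebraMap A κ π) ^ c := by
  have hsum : ∑ i ∈ P.support, algebraMap A κ (P.coeff i) * x ^ i = 0 := by
    rw [← h0, aeval_eq_sum_range' (Nat.lt_succ_self P.natDegree)]
    simp only [Algebra.smul_def]
    refine Finset.sum_subset (fun i hi => ?_) (fun i _ hi => ?_)
    · rw [Finset.mem_range]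
      exact Nat.lt_succ_of_le (le_natDegree_of_mem_supp i hi)
    · rw [notMem_support_iff.mp hi, map_zero, zero_mul]
  have hne : ∀ i ∈ P.support, algebraMap A κ (P.coeff i) * x ^ i ≠ 0 := by
    intro i hi
    refine mul_ne_zero ?_ (pow_ne_zero _ hx)
    rw [Ne, map_eq_zero_iff _ hinj]
    exact mem_support_iff.mp hi
  obtain ⟨i₀, hi₀⟩ := (nonempty_support_iff.mpr hP)
  obtain ⟨i, hi, j, hj, hij, _, _, hv⟩ := two_terms y.valuation P.support _ hsum hi₀ (hne i₀ hi₀)
  have key : ∀ i ∈ P.support, ∀ j ∈ P.support, i < j →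
      y.valuation (algebraMap A κ (P.coeff i) * x ^ i) =
        y.valuation (algebraMap A κ (P.coeff j) * x ^ j) →
      ∃ m : ℕ, 1 ≤ m ∧ m ≤ P.natDegree ∧ ∃ c : ℤ,
        y.valuation x ^ m = y.valuation (algebraMap A κ π) ^ c := by
    intro i hi j hj hlt hv
    obtain ⟨ei, _, hei⟩ := h.exists_pow hπ (mem_support_iff.mp hi)
    obtain ⟨ej, _, hej⟩ := h.exists_pow hπ (mem_support_iff.mp hj)
    refine ⟨j - i, Nat.sub_pos_of_lt hlt, le_trans (Nat.sub_le _ _)
      (le_natDegree_of_mem_supp j hj), (ei : ℤ) - ej, ?_⟩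
    have hπ0 : y.valuation (algebraMap A κ π) ≠ 0 := by
      rw [Ne, map_eq_zero, map_eq_zero_iff _ hinj]
      exact hπ.ne_zero
    have hx0 : y.valuation x ≠ 0 := by
      rw [Ne, map_eq_zero]
      exact hx
    rw [map_mul, map_mul, map_pow, map_pow, hei, hej] at hv
    have h2 : y.valuation x ^ j = y.valuation x ^ (j - i) * y.valuation x ^ i := by
      rw [← pow_add, Nat.sub_add_cancel hlt.le]
    rw [h2, ← mul_assoc] at hv
    have h3 := mul_right_cancel₀ (pow_ne_zero i hx0) hv
    rw [zpow_sub₀ hπ0, zpow_natCast, zpow_natCast, eq_div_iff (pow_ne_zero _ hπ0), h3, mul_comm]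
  rcases lt_or_gt_of_ne hij with h1 | h1
  · exact key i hi j hj h1 hv
  · exact key j hj i hi h1 hv.symm

/-- generator of the ideal of an algebraic element -/
theorem exists_gen {x : κ} (hinj : Function.Injective (algebraMap A κ)) (hx : IsAlgebraic A x) :
    ∃ P : A[X], P ≠ 0 ∧ aeval x P = 0 ∧ ∀ Q : A[X], aeval x Q = 0 → P ∣ Q := by
  have hker : (RingHom.ker (aeval x : A[X] →ₐ[A] κ)).IsPrime := RingHom.ker_isPrime _
  have hbot : RingHom.ker (aeval x : A[X] →ₐ[A] κ) ≠ ⊥ := by
    obtain ⟨p, hp, hpx⟩ := hx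
    intro h
    have : p ∈ RingHom.ker (aeval x : A[X] →ₐ[A] κ) := hpx
    rw [h, Ideal.mem_bot] at this
    exact hp this
  obtain ⟨P, hP, hPp⟩ := Ideal.IsPrime.exists_mem_prime_of_ne_bot hker hbot
  have hP0 : aeval x P = 0 := hP
  refine ⟨P, hPp.ne_zero, hP0, fun Q hQ => ?_⟩
  by_contra hnd
  let K0 := FractionRing A
  let _ : Algebra K0 κ := (IsFractionRing.lift hinj).toAlgebra
  have : IsScalarTower A K0 κ := IsScalarTower.of_algebraMap_eq fun a => by
    rw [RingHom.algebraMap_toAlgebra, IsFractionRing.lift_algebraMap]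
  have hdeg : P.natDegree ≠ 0 := by
    intro h
    rw [eq_C_of_natDegree_eq_zero h, aeval_C, map_eq_zero_iff _ hinj] at hP0
    apply hPp.ne_zero
    rw [eq_C_of_natDegree_eq_zero h, hP0, C_0]
  have hprim : P.IsPrimitive := hPp.irreducible.isPrimitive hdeg
  have hirr : Irreducible (P.map (algebraMap A K0)) :=
    (hprim.irreducible_iff_irreducible_map_fraction_map).mp hPp.irreducible
  have hnd' : ¬ P.map (algebraMap A K0) ∣ Q.map (algebraMap A K0) := by
    intro h
    apply hnd
    exact hprim.dvd_of_fraction_map_dvd_fraction_map h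
  obtain ⟨a, b, hab⟩ := (hirr.coprime_iff_not_dvd).mpr hnd'
  have h1 := congrArg (aeval x) hab
  rw [map_add, map_mul, map_mul, map_one, aeval_map_algebraMap, aeval_map_algebraMap, hP0, hQ,
    mul_zero, mul_zero, add_zero] at h1
  exact zero_ne_one h1

/-- an element which is not integral has a pole at some valuation ring over a prime of `A` -/
theorem exists_over {x : κ} (hinj : Function.Injective (algebraMap A κ)) (hx : IsAlgebraic A x)
    (hni : ¬ IsIntegral A x) :
    ∃ (π : A) (y : ValuationSubring κ), Prime π ∧ Over π y ∧ x ∉ y := by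
  classical
  obtain ⟨P, hP, hP0, hPd⟩ := exists_gen hinj hx
  have hx0 : x ≠ 0 := by
    rintro rfl
    exact hni isIntegral_zero
  have hlc : ¬ IsUnit P.leadingCoeff := by
    intro h
    apply hni
    obtain ⟨w, hw⟩ := h
    refine ⟨C (↑w⁻¹ : A) * P, ?_, ?_⟩
    · rw [Monic, leadingCoeff_mul, leadingCoeff_C, ← hw, Units.inv_mul]
    · rw [eval₂_mul, eval₂_C]
      have : eval₂ (algebraMap A κ) x P = 0 := hP0
      rw [this, mul_zero]
  obtain ⟨π, hπi, hπd⟩ := WfDvdMonoid.exists_irreducible_factor hlc (leadingCoeff_ne_zero.mpr hP)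
  have hπ : Prime π := UniqueFactorizationMonoid.irreducible_iff_prime.mp hπi
  -- leading coefficients of the relations
  have hlead : ∀ Q : A[X], aeval x Q = 0 → π ∣ Q.leadingCoeff := by
    intro Q hQ
    obtain ⟨R, rfl⟩ := hPd Q hQ
    rw [leadingCoeff_mul]
    exact dvd_mul_of_dvd_left hπd _
  have hconst : ∀ Q : A[X], aeval x⁻¹ Q = 0 → π ∣ Q.coeff 0 := by
    intro Q hQ
    by_cases h0 : Q.coeff 0 = 0
    · rw [h0]; exact dvd_zero _
    have h1 : aeval x Q.reverse = 0 := by
      have : Invertible x⁻¹ := invertibleOfNonzero (inv_ne_zero hx0)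
      have h2 := (eval₂_reverse_eq_zero_iff (algebraMap A κ) x⁻¹ Q).mpr hQ
      rwa [invOf_eq_inv, inv_inv] at h2
    have h3 := hlead _ h1
    rwa [reverse_leadingCoeff, trailingCoeff_eq_coeff_zero h0] at h3
  let R1 : Subalgebra A κ := Algebra.adjoin A {x⁻¹}
  have hxR : x⁻¹ ∈ R1 := Algebra.subset_adjoin rfl
  have hAR : ∀ a : A, algebraMap A κ a ∈ R1 := fun a => R1.algebraMap_mem a
  have hpol : ∀ r : R1, ∃ q : A[X], aeval x⁻¹ q = (r : κ) := by
    intro r
    have h1 : (r : κ) ∈ Algebra.adjoin A {x⁻¹} := r.2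
    rw [Algebra.adjoin_singleton_eq_range_aeval] at h1
    exact h1
  let xi : R1.toSubring := ⟨x⁻¹, hxR⟩
  let ι : A → R1.toSubring := fun a => ⟨algebraMap A κ a, hAR a⟩
  let J : Ideal R1.toSubring := Ideal.span {ι π, xi}
  let S : Submonoid R1.toSubring :=
    { carrier := {r | ∃ a : A, ¬ π ∣ a ∧ r = ι a}
      one_mem' := ⟨1, fun h => hπ.not_isUnit (isUnit_of_dvd_one h), by
        apply Subtype.ext
        show (1 : κ) = algebraMap A κ 1
        rw [map_one]⟩
      mul_mem' := by
        rintro _ _ ⟨a, ha, rfl⟩ ⟨b, hb, rfl⟩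
        refine ⟨a * b, fun h => (hπ.dvd_or_dvd h).elim ha hb, ?_⟩
        apply Subtype.ext
        show algebraMap A κ a * algebraMap A κ b = algebraMap A κ (a * b)
        rw [map_mul] }
  have hdisj : Disjoint (J : Set R1.toSubring) S := by
    rw [Set.disjoint_left]
    rintro r hrJ ⟨a, ha, rfl⟩
    obtain ⟨α, β, hαβ⟩ := Ideal.mem_span_pair.mp hrJ
    obtain ⟨p, hp⟩ := hpol α
    obtain ⟨q, hq⟩ := hpol β
    have h1 : (α : κ) * algebraMap A κ π + (β : κ) * x⁻¹ = algebraMap A κ a :=
      congrArg Subtype.val hαβ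
    have h2 : aeval x⁻¹ (C a - p * C π - q * X) = 0 := by
      rw [map_sub, map_sub, map_mul, map_mul, aeval_C, aeval_C, aeval_X, hp, hq, ← h1]
      ring
    have h3 := hconst _ h2
    rw [coeff_sub, coeff_sub, coeff_C_zero, mul_coeff_zero, mul_coeff_zero, coeff_X_zero, mul_zero,
      sub_zero, coeff_C_zero] at h3
    apply ha
    have h4 : a = (a - p.coeff 0 * π) + p.coeff 0 * π := by ring
    rw [h4]
    exact dvd_add h3 (dvd_mul_left _ _)
  obtain ⟨Q, hQp, hJQ, hQS⟩ := Ideal.exists_le_prime_disjoint J S hdisj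
  obtain ⟨V, hRV, hV⟩ := exists_dom R1.toSubring Q
  refine ⟨π, V, hπ, ⟨fun a => hRV (hAR a), fun a => ?_⟩, ?_⟩
  · rw [hV (ι a)]
    constructor
    · intro h
      by_contra hna
      exact (Set.disjoint_left.mp hQS) h ⟨a, hna, rfl⟩
    · rintro ⟨b, rfl⟩
      apply hJQ
      have : ι (π * b) = ι b * ι π := by
        apply Subtype.ext
        show algebraMap A κ (π * b) = algebraMap A κ b * algebraMap A κ π
        rw [map_mul, mul_comm]
      rw [this]
      exact Ideal.mul_mem_left _ _ (Ideal.subset_span (by simp))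
  · have h1 : x⁻¹ ∈ V.nonunits := (hV xi).mpr (hJQ (Ideal.subset_span (by simp)))
    exact (V.inv_mem_nonunits_iff.mp h1).resolve_left hx0

end Pool.Agent.FrD
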