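import Mathlib

/-!
# MP_305fdd_al, F_r: the dichotomy theorem, part 1: valuation subrings
-/

set_option autoImplicit false

namespace Pool.Agent.FrD

universe u v

section two

variable {K Γ : Type*} [Field K] [LinearOrderedCommGroupWithZero Γ]

/-- In a vanishing sum two different terms have the same (maximal) nonzero value. -/
theorem two_terms (w : Valuation K Γ) {ι : Type*} (s : Finset ι) (g : ι → K)
    (h0 : ∑ i ∈ s, g i = 0) {i₀ : ι} (hi₀ : i₀ ∈ s) (hne : g i₀ ≠ 0) :
    ∃ i ∈ s, ∃ j ∈ s, i ≠ j ∧ g i ≠ 0 ∧ g j ≠ 0 ∧ w (g i) = w (g j) := by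
  classical
  obtain ⟨i, hi, hmax⟩ := s.exists_max_image (fun i => w (g i)) ⟨i₀, hi₀⟩
  have hwi : w (g i) ≠ 0 := by
    intro h
    have := hmax i₀ hi₀
    rw [h] at this
    exact hne ((map_eq_zero w).mp (le_antisymm this zero_le))
  by_contra hcon
  push Not at hcon
  have hlt : ∀ j ∈ s \ {i}, w (g j) < w (g i) := by
    intro j hj
    rw [Finset.mem_sdiff, Finset.mem_singleton] at hj
    rcases lt_or_eq_of_le (hmax j hj.1) with h | h
    · exact h
    · exact absurd h.symm (hcon i hi j hj.1 (fun h => hj.2 h.symm)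
        (fun h => hwi (by rw [h, map_zero]))
        (fun h' => hwi (by rw [← h, h', map_zero])))
  have := Valuation.map_sum_eq_of_lt w hi hlt
  rw [h0, map_zero] at this
  exact hwi this.symm

end two

section dom

variable {K : Type*} [Field K]

/-- domination of a prime ideal by a valuation ring -/
theorem exists_dom (R : Subring K) (P : Ideal R) [P.IsPrime] :
    ∃ V : ValuationSubring K, R ≤ V.toSubring ∧ ∀ a : R, (a : K) ∈ V.nonunits ↔ a ∈ P := by
  obtain ⟨V, hV⟩ := (LocalSubring.ofPrime R P).exists_le_valuationSubring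
  have h1 := LocalSubring.le_ofPrime R P
  refine ⟨V, h1.trans hV.1, fun a => ?_⟩
  have hloc := hV.2
  have hmem : (a : K) ∈ (LocalSubring.ofPrime R P).toSubring := h1 a.2
  have hV' : (a : K) ∈ V := hV.1 hmem
  have e1 : (a : K) ∈ V.nonunits ↔ ¬ IsUnit (⟨a, hV'⟩ : V) := by
    exact (ValuationSubring.coe_mem_nonunits_iff (a := (⟨a, hV'⟩ : V))).trans
      (IsLocalRing.mem_maximalIdeal _)
  have e2 : IsUnit (⟨a, hV'⟩ : V) ↔
      IsUnit (⟨a, hmem⟩ : (LocalSubring.ofPrime R P).toSubring) := by
    constructor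
    · intro h
      exact hloc.map_nonunit _ h
    · intro h
      exact h.map (Subring.inclusion hV.1)
  have e3 : IsUnit (⟨a, hmem⟩ : (LocalSubring.ofPrime R P).toSubring) ↔ a ∉ P := by
    have := IsLocalization.AtPrime.isUnit_to_map_iff
      (LocalSubring.ofPrime R P).toSubring P a
    exact this
  rw [e1, e2, e3, not_not]

theorem mem_of_integral (R : Subring K) (V : ValuationSubring K) (hRV : R ≤ V.toSubring) {x : K}
    (hx : IsIntegral R x) : x ∈ V := by
  have h := iInf_valuationSubring_superset (s := (R : Set K))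
  have h2 : x ∈ (integralClosure (Subring.closure (R : Set K)) K).toSubring := by
    rw [Subring.closure_eq]
    exact hx
  rw [← h] at h2
  exact (iInf_le (fun V : {V : ValuationSubring K // (R : Set K) ⊆ V.toSubring} =>
    V.1.toSubring) ⟨V, hRV⟩) h2

theorem integral_of_mem (R : Subring K) {x : K}
    (hx : ∀ V : ValuationSubring K, R ≤ V.toSubring → x ∈ V) : IsIntegral R x := by
  have h := iInf_valuationSubring_superset (s := (R : Set K))
  have h2 : x ∈ (⨅ V : {V : ValuationSubring K // (R : Set K) ⊆ V.toSubring},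
      V.1.toSubring) := by
    rw [Subring.mem_iInf]
    intro V
    exact hx V.1 V.2
  rw [h, Subring.closure_eq] at h2
  exact h2

end dom

end Pool.Agent.FrD
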